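import Pool.Agent.P8H7.RC.Sq

/-!
# Project RC: the square of the cycle, colourings and holes
-/

set_option autoImplicit false

namespace Pool.Agent.P8H7.RC

open Finset
open Pool.Agent.P8H79.RC

theorem fin3 (x0 x1 x2 x3 : Fin 3) (h1 : x0 ≠ x1) (h2 : x0 ≠ x2) (h3 : x1 ≠ x2) (h4 : x1 ≠ x3)
    (h5 : x2 ≠ x3) : x3 = x0 := by
  rw [Ne, Fin.ext_iff] at h1 h2 h3 h4 h5
  rw [Fin.ext_iff]
  have := x0.isLt
  have := x1.isLt
  have := x2.isLt
  have := x3.isLt
  omega

/-- **SQC** -/
theorem sqc : S_SQC := by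
  intro n hn h3
  haveI : NeZero n := ⟨by omega⟩
  obtain ⟨π, -⟩ : ∃ π : ZMod n →+* ZMod 3, π = ZMod.castHom h3 (ZMod 3) := ⟨_, rfl⟩
  have hπ : ∀ a b, (Csq n).Adj a b → π a ≠ π b := by
    intro a b h
    obtain ⟨s, h0, h2, rfl⟩ := (adj_iff hn a b).1 h
    rw [map_add, map_intCast]
    intro h4
    have h5 : ((s : ℤ) : ZMod 3) = 0 := by
      have : π a + (s : ZMod 3) - π a = 0 := by rw [← h4]; ring
      rw [← this]; ring
    apply h0
    exact zz (n := 3) s h5 (by push_cast; omega)
  let C : (ZMod 3 ≃ Fin 3) → (Csq n).Coloring (Fin 3) := fun σ =>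
    SimpleGraph.Coloring.mk (fun a => σ (π a)) (fun {a b} h he => hπ a b h (σ.injective he))
  have hC : ∀ σ a, C σ a = σ (π a) := fun _ _ => rfl
  have hval : ∀ x : ZMod 3, π ((x.val : ℕ) : ZMod n) = x := fun x => by
    rw [map_natCast, ZMod.natCast_zmod_val]
  have hinj : Function.Injective C := by
    intro σ τ h
    refine Equiv.ext fun x => ?_
    have h1 : C σ ((x.val : ℕ) : ZMod n) = C τ ((x.val : ℕ) : ZMod n) := by rw [h]
    rw [hC, hC, hval] at h1
    exact h1
  have hsurj : Function.Surjective C := by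
    intro c
    have dist : ∀ a b : ZMod n, (Csq n).Adj a b → c a ≠ c b := fun a b h => c.valid h
    have per : ∀ k : ZMod n, c (k + 3) = c k := by
      intro k
      have e1 : ∀ (a b : ZMod n) (s : ℤ), s ≠ 0 → |s| ≤ 2 → b = a + (s : ZMod n) → c a ≠ c b :=
        fun a b s h0 h2 he => dist a b ((adj_iff hn a b).2 ⟨s, h0, h2, he⟩)
      have d1 := e1 k (k + 1) 1 (by norm_num) (by norm_num) (by push_cast; ring)
      have d2 := e1 k (k + 2) 2 (by norm_num) (by norm_num) (by push_cast; ring)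
      have d3 := e1 (k + 1) (k + 2) 1 (by norm_num) (by norm_num) (by push_cast; ring)
      have d4 := e1 (k + 1) (k + 3) 2 (by norm_num) (by norm_num) (by push_cast; ring)
      have d5 := e1 (k + 2) (k + 3) 1 (by norm_num) (by norm_num) (by push_cast; ring)
      exact fin3 _ _ _ _ d1 d2 d3 d4 d5
    have red : ∀ k : ℕ, c ((k : ℕ) : ZMod n) = c (((k % 3 : ℕ)) : ZMod n) := by
      intro k
      induction k using Nat.strong_induction_on with
      | _ k ih =>
        by_cases hk : k < 3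
        · rw [Nat.mod_eq_of_lt hk]
        · obtain ⟨j, rfl⟩ : ∃ j, k = j + 3 := ⟨k - 3, by omega⟩
          rw [Nat.add_mod_right, ← ih j (by omega)]
          push_cast
          exact per _
    let f : ZMod 3 → Fin 3 := fun x => c ((x.val : ℕ) : ZMod n)
    have hf : Function.Injective f := by
      intro x y h
      by_contra hxy
      refine dist ((x.val : ℕ) : ZMod n) ((y.val : ℕ) : ZMod n) ((adj_iff hn _ _).2
        ⟨(y.val : ℤ) - x.val, ?_, ?_, by push_cast; ring⟩) h
      · intro h0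
        apply hxy
        apply ZMod.val_injective 3
        omega
      · have h1 := ZMod.val_lt x
        have h2 := ZMod.val_lt y
        rw [abs_le]
        constructor <;> omega
    have hb : Function.Bijective f :=
      (Fintype.bijective_iff_injective_and_card f).2 ⟨hf, by rw [ZMod.card, Fintype.card_fin]⟩
    refine ⟨Equiv.ofBijective f hb, ?_⟩
    ext a
    have h1 : a = ((a.val : ℕ) : ZMod n) := (ZMod.natCast_zmod_val a).symm
    rw [hC]
    have h2 : π a = ((a.val : ℕ) : ZMod 3) := by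
      conv_lhs => rw [h1]
      rw [map_natCast]
    have h4 : (Equiv.ofBijective f hb) (π a) = c a := by
      show c (((π a).val : ℕ) : ZMod n) = c a
      rw [h2, ZMod.val_natCast, ← red a.val, ← h1]
    rw [h4]
  unfold cnt
  rw [← Nat.card_congr (Equiv.ofBijective C ⟨hinj, hsurj⟩), Nat.card_eq_fintype_card,
    Fintype.card_equiv (show ZMod 3 ≃ Fin 3 from Equiv.refl _), ZMod.card]
  rfl

theorem one_ne {k : ℕ} : (1 : Fin (k + 2)) ≠ 0 := by
  intro h
  have := congrArg Fin.val h
  simp at this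

theorem two_ne {k : ℕ} (hk : 2 ≤ k) : (1 + 1 : Fin (k + 2)) ≠ 0 := by
  intro h
  have := congrArg Fin.val h
  rw [Fin.val_add, Fin.val_one, Fin.val_zero, Nat.mod_eq_of_lt (by omega)] at this
  omega

theorem three_ne {k : ℕ} (hk : 2 ≤ k) : (1 + 1 + 1 : Fin (k + 2)) ≠ 0 := by
  intro h
  have := congrArg Fin.val h
  rw [Fin.val_add, Fin.val_add, Fin.val_one, Fin.val_zero, Nat.mod_eq_of_lt (a := 1 + 1) (by omega),
    Nat.mod_eq_of_lt (by omega)] at this
  omega

/-- **SQB** -/
theorem sqb : S_SQB := by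
  intro n hn j hj4 hjn
  have : NeZero n := ⟨by omega⟩
  refine ⟨fun e => ?_⟩
  obtain ⟨k, rfl⟩ : ∃ k, j = k + 2 := ⟨j - 2, by omega⟩
  have hk : 2 ≤ k := by omega
  obtain ⟨c, hc⟩ : ∃ c : ℕ → Fin (k + 2), c = fun i => Fin.ofNat (k + 2) i := ⟨_, rfl⟩
  have c1 : ∀ i, c (i + 1) = c i + 1 := by
    intro i
    rw [hc]
    apply Fin.ext
    simp only [Fin.ofNat, Fin.val_add, Fin.val_one]
    exact (Nat.mod_add_mod _ _ _).symm
  have cp : ∀ i, c (i + (k + 2)) = c i := by
    intro i
    rw [hc]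
    apply Fin.ext
    simp only [Fin.ofNat, Nat.add_mod_right]
  have hadj : ∀ u : Fin (k + 2), (Csq n).Adj (e u) (e (u + 1)) := by
    intro u
    rw [e.map_rel_iff, SimpleGraph.cycleGraph_adj]
    right
    rw [add_sub_cancel_left]
  have hs : ∀ u : Fin (k + 2), ∃ s : ℤ, s ≠ 0 ∧ |s| ≤ 2 ∧ e (u + 1) = e u + (s : ZMod n) := fun u =>
    (adj_iff hn _ _).1 (hadj u)
  choose s s0 s2 se using hs
  obtain ⟨F, hF⟩ : ∃ F : ℕ → ℤ, F = fun i => ∑ t ∈ Finset.range i, s (c t) := ⟨_, rfl⟩
  have F1 : ∀ i, F (i + 1) = F i + s (c i) := fun i => by rw [hF]; exact Finset.sum_range_succ _ _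
  have FE : ∀ i, e (c i) = e (c 0) + (F i : ZMod n) := by
    intro i
    induction i with
    | zero =>
      have : F 0 = 0 := by rw [hF]; simp
      rw [this]; simp
    | succ i ih =>
      rw [c1, se, ih, F1]
      push_cast
      ring
  have Fd : ∀ i t, |F (i + t) - F i| ≤ 2 * t := by
    intro i t
    induction t with
    | zero => simp
    | succ t ih =>
      rw [← add_assoc, F1]
      have := s2 (c (i + t))
      rw [abs_le] at this ih ⊢
      push_cast
      constructor <;> linarith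
  have Fp : ∀ i, F (i + (k + 2)) = F i := by
    intro i
    have h1 : F (i + (k + 2)) - F i = 0 := by
      apply zz (n := n)
      · push_cast
        have h2 := FE (i + (k + 2))
        rw [cp, FE i] at h2
        have : (F i : ZMod n) = (F (i + (k + 2)) : ZMod n) := add_left_cancel h2
        rw [this]; ring
      · have h2 := Fd i (k + 2)
        push_cast at h2 ⊢
        have h3 : (2 * (k + 2) : ℤ) < n := by exact_mod_cast hjn
        linarith
    linarith
  obtain ⟨m, hm, hmax⟩ := Finset.exists_max_image (Finset.Icc 1 (k + 2)) F ⟨1, by simp⟩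
  rw [Finset.mem_Icc] at hm
  obtain ⟨p, rfl⟩ : ∃ p, m = p + 1 := ⟨m - 1, by omega⟩
  have g1 : F p ≤ F (p + 1) := by
    rcases Nat.eq_zero_or_pos p with h | h
    · subst h
      have := Fp 0
      rw [zero_add] at this
      rw [← this]
      exact hmax _ (by rw [Finset.mem_Icc]; omega)
    · exact hmax _ (by rw [Finset.mem_Icc]; omega)
  have g2 : F (p + 2) ≤ F (p + 1) := by
    by_cases h : p + 2 ≤ k + 2
    · exact hmax _ (by rw [Finset.mem_Icc]; omega)
    · have h5 : p + 2 = 1 + (k + 2) := by omega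
      rw [h5, Fp]
      exact hmax _ (by rw [Finset.mem_Icc]; omega)
  have u1 := F1 p
  have u2 : F (p + 2) = F (p + 1) + s (c (p + 1)) := F1 (p + 1)
  have v1 := s0 (c p)
  have v2 := s2 (c p)
  have w1 := s0 (c (p + 1))
  have w2 := s2 (c (p + 1))
  rw [abs_le] at v2 w2
  have hD : F (p + 2) - F p = 0 ∨ F (p + 2) - F p = 1 ∨ F (p + 2) - F p = -1 := by omega
  have hc2 : c (p + 2) = c p + 1 + 1 := by
    rw [show p + 2 = p + 1 + 1 by ring, c1, c1]
  have hE : e (c (p + 2)) = e (c p) + ((F (p + 2) - F p : ℤ) : ZMod n) := by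
    rw [FE (p + 2), FE p]
    push_cast
    ring
  by_cases h0 : F (p + 2) - F p = 0
  · rw [h0, Int.cast_zero, add_zero] at hE
    have h6 := e.injective hE
    rw [hc2, add_assoc] at h6
    exact two_ne hk (add_eq_left.1 h6)
  · have ha : (Csq n).Adj (e (c p)) (e (c (p + 2))) :=
      (adj_iff hn _ _).2 ⟨_, h0, by rw [abs_le]; omega, hE⟩
    rw [e.map_rel_iff, SimpleGraph.cycleGraph_adj, hc2] at ha
    rcases ha with h | h
    · have h6 : (1 + 1 + 1 : Fin (k + 2)) = 0 := by
        have h7 : c p - (c p + 1 + 1) + (1 + 1) = 0 := by abel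
        rw [h] at h7
        rw [← h7]; abel
      exact three_ne hk h6
    · have h6 : (1 : Fin (k + 2)) = 0 := by
        have h7 : c p + 1 + 1 - c p = 1 + 1 := by abel
        rw [h7] at h
        exact add_eq_left.1 h
      exact one_ne h6

end Pool.Agent.P8H7.RC
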