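import Pool.Agent.P8H79.RC.Stm5
import Pool.Agent.P8H59.RC.Cmp

/-!
# Project RC, package CMPH: equality of the numbers of holes
-/

set_option autoImplicit false

namespace Pool.Agent.P8H7.RC9

open Finset Polynomial
open Pool.Agent.P8H79.RC

/-- **CMPH** -/
theorem cmph (hP : S_POL) (hHX : S_HX) : S_CMPH := by
  classical
  intro V W _ _ G H hG hH hVW hcnt l hl hno hno'
  obtain ⟨w, Z, hZ⟩ := hP V G
  obtain ⟨w', Z', hZ'⟩ := hP W H
  have hE : Z Finset.univ = Z' Finset.univ := by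
    apply Pool.Agent.P8H59.RC.poly_ext_inv
    intro q hq
    have h1 := hZ.hcnt Finset.univ q hq
    have h2 := hZ'.hcnt Finset.univ q hq
    rw [Pool.Agent.P8H59.RC.cntOn_univ] at h1 h2
    rw [hcnt q, h2, Finset.card_univ, Finset.card_univ, ← hVW] at h1
    have hq0 : (q : ℚ) ≠ 0 := by
      have : (0 : ℚ) < q := by exact_mod_cast hq
      exact this.ne'
    exact (mul_left_cancel₀ (pow_ne_zero _ hq0) h1).symm
  obtain ⟨he, ht, -⟩ := Pool.Agent.P8H59.RC.cmp hP hHX V W G H hG hH hVW hcnt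
  exact Pool.Agent.P8H59.RC.holes_same hHX G H w Z hZ hG w' Z' hZ' hH hE he ht l hl hno hno'

end Pool.Agent.P8H7.RC9
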