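import Pool.Agent.P8H7.RC.Fin6a

/-!
# Project RC, package FINW6: all links are acyclic
-/

set_option autoImplicit false

namespace Pool.Agent.P8H7.RC6

open Finset
open Pool.Agent.P8H79.RC

section
variable {V : Type} {G : SimpleGraph V} {l : ℕ} [NeZero l]

theorem card4 {α : Type} [DecidableEq α] {a b c d : α} (ab : a ≠ b) (ac : a ≠ c) (ad : a ≠ d)
    (bc : b ≠ c) (bd : b ≠ d) (cd : c ≠ d) : ({a, b, c, d} : Finset α).card = 4 := by
  rw [Finset.card_insert_of_notMem, Finset.card_insert_of_notMem, Finset.card_insert_of_notMem,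
    Finset.card_singleton]
  · simpa using cd
  · simp only [Finset.mem_insert, Finset.mem_singleton, not_or]
    exact ⟨bc, bd⟩
  · simp only [Finset.mem_insert, Finset.mem_singleton, not_or]
    exact ⟨ab, ac, ad⟩

theorem card5 {α : Type} [DecidableEq α] {a b c d e : α} (ab : a ≠ b) (ac : a ≠ c) (ad : a ≠ d)
    (ae : a ≠ e) (bc : b ≠ c) (bd : b ≠ d) (be : b ≠ e) (cd : c ≠ d) (ce : c ≠ e) (de : d ≠ e) :
    ({a, b, c, d, e} : Finset α).card = 5 := by
  rw [Finset.card_insert_of_notMem, card4 bc bd be cd ce de]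
  simp only [Finset.mem_insert, Finset.mem_singleton, not_or]
  exact ⟨ab, ac, ad, ae⟩

theorem s1 (hl : 6 ≤ l) (i : ZMod l) : i ≠ i + 1 :=
  zne hl i (i + 1) 1 (by norm_num) (by norm_num) (by push_cast; ring)

theorem s2 (hl : 6 ≤ l) (i : ZMod l) : i - 1 ≠ i :=
  zne hl (i - 1) i 1 (by norm_num) (by norm_num) (by push_cast; ring)

theorem s3 (hl : 6 ≤ l) (i : ZMod l) : i - 1 ≠ i + 1 :=
  zne hl (i - 1) (i + 1) 2 (by norm_num) (by norm_num) (by push_cast; ring)

theorem replaced (hl : 6 ≤ l) {q : ZMod l → V} (hq : Cyc G l q) (w : V) (hw : w ∉ Set.range q)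
    (hb : {i | q i = w ∨ G.Adj w (q i)}.ncard ≤ 3) (i : ZMod l) (h0 : G.Adj w (q (i - 1)))
    (h1 : G.Adj w (q i)) (h2 : G.Adj w (q (i + 1))) : Cyc G l (Function.update q i w) := by
  classical
  have nbr : ∀ j, G.Adj w (q j) → j = i - 1 ∨ j = i ∨ j = i + 1 := by
    intro j hj
    by_contra hcon
    push Not at hcon
    obtain ⟨c1, c2, c3⟩ := hcon
    have h := many hb {j, i - 1, i, i + 1} (by
      intro k hk
      simp only [Finset.mem_insert, Finset.mem_singleton] at hk
      rcases hk with rfl | rfl | rfl | rfl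
      · exact Or.inr hj
      · exact Or.inr h0
      · exact Or.inr h1
      · exact Or.inr h2)
    rw [card4 c1 c2 c3 (s2 hl i) (s3 hl i) (s1 hl i)] at h
    omega
  have nq : ∀ j, q j ≠ w := fun j h => hw ⟨j, h⟩
  constructor
  · intro j k h
    rw [Function.update_apply, Function.update_apply] at h
    split_ifs at h with hj hk hk
    · rw [hj, hk]
    · exact absurd h.symm (nq k)
    · exact absurd h (nq j)
    · exact hq.inj h
  · intro j k
    rw [Function.update_apply, Function.update_apply]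
    split_ifs with hj hk hk
    · subst hj; subst hk
      constructor
      · intro h; exact absurd rfl h.ne
      · rintro (h | h) <;> exact absurd h (s1 hl _)
    · subst hj
      constructor
      · intro h
        rcases nbr k h with h | h | h
        · right; rw [h]; ring
        · exact absurd h hk
        · left; exact h
      · rintro (h | h)
        · rw [h]; exact h2
        · have : k = j - 1 := by rw [h]; ring
          rw [this]; exact h0
    · subst hk
      constructor
      · intro h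
        rcases nbr j h.symm with h | h | h
        · left; rw [h]; ring
        · exact absurd h hj
        · right; exact h
      · rintro (h | h)
        · have : j = k - 1 := by rw [h]; ring
          rw [this]; exact h0.symm
        · rw [h]; exact h2.symm
    · exact hq.adj j k

theorem no_three [Fintype V] (hl : 6 ≤ l) {q : ZMod l → V} (hq : Cyc G l q)
    (hh : holes G l ≤ 2) (v : V) (hbv : {i | q i = v ∨ G.Adj v (q i)}.ncard ≤ 3)
    (e : SimpleGraph.cycleGraph l ↪g G) (he : ∀ a, G.Adj v (e a)) (w : V)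
    (hw : w ∉ Set.range q) (hb : {i | q i = w ∨ G.Adj w (q i)}.ncard ≤ 3) (i : ZMod l)
    (h0 : G.Adj w (q (i - 1))) (h1 : G.Adj w (q i)) (h2 : G.Adj w (q (i + 1))) : False := by
  classical
  obtain ⟨e1, he1⟩ := hq.emb (by omega)
  obtain ⟨e2, he2⟩ := (replaced hl hq w hw hb i h0 h1 h2).emb (by omega)
  have := three_holes e e1 e2 (by
    rw [he1]
    intro h
    have h3 := many hbv Finset.univ (by
      intro j _
      have : q j ∈ Set.range e := by rw [h]; exact ⟨j, rfl⟩
      obtain ⟨a, ha⟩ := this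
      right
      rw [← ha]
      exact he a)
    rw [Finset.card_univ, ZMod.card] at h3
    omega) (by
    rw [he2]
    intro h
    have h3 := many hbv (Finset.univ.erase i) (by
      intro j hj
      rw [Finset.mem_erase] at hj
      have : q j ∈ Set.range e := by
        rw [h]
        exact ⟨j, Function.update_of_ne hj.1 _ _⟩
      obtain ⟨a, ha⟩ := this
      right
      rw [← ha]
      exact he a)
    rw [Finset.card_erase_of_mem (Finset.mem_univ _), Finset.card_univ, ZMod.card] at h3
    omega) (by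
    rw [he1, he2]
    intro h
    apply hw
    rw [h]
    exact ⟨i, Function.update_self _ _ _⟩)
  omega

theorem cover_one (hl : 6 ≤ l) {q : ZMod l → V} (w : V)
    (hb : {i | q i = w ∨ G.Adj w (q i)}.ncard ≤ 3)
    (H3 : ∀ i, G.Adj w (q (i - 1)) → G.Adj w (q i) → G.Adj w (q (i + 1)) → False) :
    {i | G.Adj w (q i) ∧ G.Adj w (q (i + 1))}.ncard ≤ 1 := by
  classical
  rw [Set.ncard_le_one_iff (Set.toFinite _)]
  intro j k hj hk
  by_contra hjk
  have hj1 : G.Adj w (q j) := hj.1
  have hj2 : G.Adj w (q (j + 1)) := hj.2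
  have hk1 : G.Adj w (q k) := hk.1
  have hk2 : G.Adj w (q (k + 1)) := hk.2
  by_cases h1 : k = j + 1
  · subst h1
    exact H3 (j + 1) (by rw [add_sub_cancel_right]; exact hj1) hj2 hk2
  · by_cases h2 : j = k + 1
    · subst h2
      exact H3 (k + 1) (by rw [add_sub_cancel_right]; exact hk1) hk2 hj2
    · have h := many hb {j, j + 1, k, k + 1} (by
        intro t ht
        simp only [Finset.mem_insert, Finset.mem_singleton] at ht
        rcases ht with rfl | rfl | rfl | rfl
        · exact Or.inr hj1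
        · exact Or.inr hj2
        · exact Or.inr hk1
        · exact Or.inr hk2)
      rw [card4 (s1 hl j) hjk h2 (fun h => h1 h.symm) (fun h => hjk (add_right_cancel h))
        (s1 hl k)] at h
      omega

theorem TA_two (hl : 6 ≤ l) {q : ZMod l → V} (hq : Cyc G l q) (v : V) (i0 : ZMod l)
    (hi0 : q i0 = v)
    (ball2 : ∀ u v, G.Adj u v →
      {i | (q i = v ∨ G.Adj v (q i)) ∨ (q i = u ∨ G.Adj u (q i))}.ncard ≤ 4)
    (H3 : ∀ w, w ∉ Set.range q → ∀ i, G.Adj w (q (i - 1)) → G.Adj w (q i) →
      G.Adj w (q (i + 1)) → False) :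
    {i | ∃ a, a ∉ Set.range q ∧ (a = v ∨ G.Adj v a) ∧ G.Adj a (q i) ∧
      G.Adj a (q (i + 1))}.ncard ≤ 2 := by
  classical
  have hsub : {i | ∃ a, a ∉ Set.range q ∧ (a = v ∨ G.Adj v a) ∧ G.Adj a (q i) ∧
      G.Adj a (q (i + 1))} ⊆ (({i0 - 1, i0} : Finset (ZMod l)) : Set (ZMod l)) := by
    rintro j ⟨a, ha, hav, h1, h2⟩
    rcases hav with rfl | hav
    · exact absurd ⟨i0, hi0⟩ ha
    rw [Finset.mem_coe, Finset.mem_insert, Finset.mem_singleton]
    by_contra hcon
    push Not at hcon
    obtain ⟨c1, c2⟩ := hcon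
    have ha0 : G.Adj a (q i0) := by rw [hi0]; exact hav.symm
    by_cases c3 : j = i0 + 1
    · subst c3
      exact H3 a ha (i0 + 1) (by rw [add_sub_cancel_right]; exact ha0) h1 h2
    · by_cases c4 : j + 1 = i0 - 1
      · have e : j + 1 + 1 = i0 := by rw [c4]; ring
        exact H3 a ha (j + 1) (by rw [add_sub_cancel_right]; exact h1) h2 (by rw [e]; exact ha0)
      · have h := many (ball2 a v hav.symm) {i0 - 1, i0, i0 + 1, j, j + 1} (by
          intro t ht
          simp only [Finset.mem_insert, Finset.mem_singleton] at ht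
          rcases ht with rfl | rfl | rfl | rfl | rfl
          · left; right
            rw [← hi0, hq.adj]
            right; ring
          · left; left; exact hi0
          · left; right
            rw [← hi0, hq.adj]
            left; rfl
          · right; right; exact h1
          · right; right; exact h2)
        rw [card5 (s2 hl i0) (s3 hl i0) (fun h => c1 h.symm) (fun h => c4 h.symm) (s1 hl i0)
          (fun h => c2 h.symm) (fun h => c1 (by rw [h]; ring)) (fun h => c3 h.symm)
          (fun h => c2 (add_right_cancel h).symm) (s1 hl j)] at h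
        omega
  refine (Set.ncard_le_ncard hsub (Finset.finite_toSet _)).trans ?_
  rw [Set.ncard_coe_finset]
  exact Finset.card_le_two

theorem kap_two (hl : 6 ≤ l) {q : ZMod l → V} (hq : Cyc G l q) (v : V) (hv : v ∉ Set.range q)
    (ball2 : ∀ u v, G.Adj u v →
      {i | (q i = v ∨ G.Adj v (q i)) ∨ (q i = u ∨ G.Adj u (q i))}.ncard ≤ 4)
    (H3 : ∀ w, w ∉ Set.range q → ∀ i, G.Adj w (q (i - 1)) → G.Adj w (q i) →
      G.Adj w (q (i + 1)) → False) :
    {i | q i = v ∨ G.Adj v (q i)}.ncard ≤ 2 := by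
  classical
  by_contra hcon
  push Not at hcon
  obtain ⟨a, b, c, ha, hb, hc, hab, hac, hbc⟩ := (Set.two_lt_ncard_iff (Set.toFinite _)).1 hcon
  have nv : ∀ i, i ∈ {i | q i = v ∨ G.Adj v (q i)} → G.Adj v (q i) := by
    rintro i (h | h)
    · exact absurd ⟨i, h⟩ hv
    · exact h
  have ha' := nv a ha
  have hb' := nv b hb
  have hc' := nv c hc
  have one : ∀ x y z : ZMod l, G.Adj v (q x) → G.Adj v (q y) → G.Adj v (q z) → x ≠ y → x ≠ z →
      y ≠ z → (y = x + 1 ∨ x = y + 1) ∨ (z = x + 1 ∨ x = z + 1) := by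
    intro x y z hx hy hz xy xz yz
    by_contra hcon
    push Not at hcon
    obtain ⟨⟨c1, c2⟩, c3, c4⟩ := hcon
    have h := many (ball2 (q x) v hx.symm) {x, y, z, x - 1, x + 1} (by
      intro t ht
      simp only [Finset.mem_insert, Finset.mem_singleton] at ht
      rcases ht with rfl | rfl | rfl | rfl | rfl
      · left; right; exact hx
      · left; right; exact hy
      · left; right; exact hz
      · right; right
        rw [hq.adj]
        right; ring
      · right; right
        rw [hq.adj]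
        left; rfl)
    rw [card5 xy xz (s2 hl x).symm (s1 hl x) yz (fun h => c2 (by rw [h]; ring)) c1
      (fun h => c4 (by rw [h]; ring)) c3 (s3 hl x)] at h
    omega
  have cen : ∀ x y z : ZMod l, G.Adj v (q x) → G.Adj v (q y) → G.Adj v (q z) → y ≠ z →
      (y = x + 1 ∨ x = y + 1) → (z = x + 1 ∨ x = z + 1) → False := by
    intro x y z hx hy hz yz h1 h2
    rcases h1 with h1 | h1 <;> rcases h2 with h2 | h2
    · exact yz (h1.trans h2.symm)
    · refine H3 v hv x ?_ hx ?_
      · have : x - 1 = z := by rw [h2]; ring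
        rw [this]; exact hz
      · rw [← h1]; exact hy
    · refine H3 v hv x ?_ hx ?_
      · have : x - 1 = y := by rw [h1]; ring
        rw [this]; exact hy
      · rw [← h2]; exact hz
    · exact yz (add_right_cancel (h1.symm.trans h2))
  have pa := one a b c ha' hb' hc' hab hac hbc
  have pb := one b a c hb' ha' hc' hab.symm hbc hac
  have pc := one c a b hc' ha' hb' hac.symm hbc.symm hab
  rcases pa with pa | pa
  · rcases pc with pc | pc
    · exact cen a b c ha' hb' hc' hbc pa pc.symm
    · exact cen b a c hb' ha' hc' hac pa.symm pc.symm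
  · rcases pb with pb | pb
    · exact cen a b c ha' hb' hc' hbc pb.symm pa
    · exact cen c a b hc' ha' hb' hab pa.symm pb.symm

end

/-- **FINW6** -/
theorem finw6 (hA : S_ALPHA6) (hB : S_BETA6) : S_FINW6 := by
  classical
  intro V _ G h12 h4 hns hh hcol hne h2 h3 l hl hNl q hq v
  by_contra hv
  have : NeZero l := ⟨by omega⟩
  have hac : ∀ u, u ≠ v → (link G u).IsAcyclic := fun u hu =>
    hA V G h12 h4 hns hh l hl hNl q hq u v hu hv
  have hbe := hB V G h12 h4 hns hh l hl hNl q hq v hv
  have cyc : Cyc G l q := ⟨hq.inj, hq.adj⟩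
  obtain ⟨N, hN⟩ : ∃ N, N = Fintype.card V := ⟨_, rfl⟩
  have : Finite (G.neighborSet v) := Finite.of_injective (fun x => (x : V)) Subtype.val_injective
  obtain ⟨r, hr3, ⟨e0⟩⟩ := Pool.Agent.P8H1.RC.hole _ (link G v) hv
  obtain ⟨e, he⟩ : ∃ e : SimpleGraph.cycleGraph r ↪g G, ∀ a, G.Adj v (e a) :=
    ⟨e0.trans (SimpleGraph.Embedding.induce _), fun a => (e0 a).2⟩
  have hee : ∀ a b, G.Adj (e a) (e b) ↔ (SimpleGraph.cycleGraph r).Adj a b := fun a b =>
    e.map_rel_iff
  have hr4 : 4 ≤ r := by
    by_contra hcon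
    have hr : r = 3 := by omega
    subst hr
    exact Pool.Agent.P8H7.RC9.no_k4 h4 (he 0) (he 1) (he 2) ((hee 0 1).2 (by decide))
      ((hee 0 2).2 (by decide)) ((hee 1 2).2 (by decide))
  have hr2 : N ≤ 2 * r := by
    by_contra hcon
    exact (hns r hr4 (by omega)).false e
  have nb : ∀ a : Fin r, ∃ w, G.Adj w v ∧ G.Adj w (e a) := by
    intro a
    obtain ⟨k, rfl⟩ : ∃ k, r = k + 2 := ⟨r - 2, by omega⟩
    refine ⟨e (a + 1), (he _).symm, ?_⟩
    rw [hee, SimpleGraph.cycleGraph_adj]
    left
    exact add_sub_cancel_left a 1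
  -- the sets T and B
  obtain ⟨T, hT⟩ : ∃ T : Finset (ZMod l), ∀ i, i ∈ T ↔ ∃ w, G.Adj w (q i) ∧ G.Adj w (q (i + 1)) :=
    ⟨Finset.univ.filter (fun i => ∃ w, G.Adj w (q i) ∧ G.Adj w (q (i + 1))), fun i => by simp⟩
  obtain ⟨B, hB'⟩ : ∃ B : Finset (ZMod l), ∀ i, i ∈ B ↔ (i ∉ T ∨ i - 1 ∉ T) :=
    ⟨Finset.univ.filter (fun i => i ∉ T ∨ i - 1 ∉ T), fun i => by simp⟩
  have qs : ∀ i, G.Adj (q i) (q (i + 1)) := fun i => (cyc.adj _ _).2 (Or.inl rfl)
  have qp : ∀ i, G.Adj (q i) (q (i - 1)) := fun i => (cyc.adj _ _).2 (Or.inr (by ring))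
  have bad : ∀ i ∈ B, ¬ (link G (q i)).Connected := by
    intro i hi
    rcases (hB' i).1 hi with h | h
    · exact not_conn (qs i) (qp i) (fun h' => s3 hl i (cyc.inj h').symm) (fun h' => h ((hT i).2 h'))
    · refine not_conn (qp i) (qs i) (fun h' => s3 hl i (cyc.inj h')) ?_
      rintro ⟨w, w1, w2⟩
      apply h
      rw [hT]
      exact ⟨w, w2, by rw [sub_add_cancel]; exact w1⟩
  have one_bad : ∀ i ∈ B, ∀ j ∈ B, q i ≠ v → q j ≠ v → i = j := by
    intro i hi j hj h1 h2'
    by_contra hij
    exact two_bad hne h2 h3 v hac hbe (q i) (q j) (fun h => hij (cyc.inj h)) h1 h2' (bad i hi)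
      (bad j hj)
  have C1 : B.card ≤ 2 := by
    by_contra hcon
    push Not at hcon
    obtain ⟨a, b, c, ha, hb, hc, hab, hac', hbc⟩ := Finset.two_lt_card_iff.1 hcon
    by_cases h1 : q a = v
    · exact hbc (one_bad b hb c hc (fun h => hab (cyc.inj (h1.trans h.symm)))
        (fun h => hac' (cyc.inj (h1.trans h.symm))))
    · by_cases h2' : q b = v
      · exact hac' (one_bad a ha c hc h1 (fun h => hbc (cyc.inj (h2'.trans h.symm))))
      · exact hab (one_bad a ha b hb h1 h2')
  have C2 : (∀ i ∈ B, q i ≠ v) → B.card ≤ 1 := fun h =>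
    Finset.card_le_one.2 fun i hi j hj => one_bad i hi j hj (h i hi) (h j hj)
  -- sizes
  obtain ⟨A, hAd⟩ : ∃ A : Finset V, A = insert v (Finset.univ.image e) := ⟨_, rfl⟩
  obtain ⟨Q, hQd⟩ : ∃ Q : Finset V, Q = Finset.univ.image q := ⟨_, rfl⟩
  obtain ⟨O, hOd⟩ : ∃ O : Finset V, O = (A ∪ Q)ᶜ := ⟨_, rfl⟩
  obtain ⟨κ, hκ⟩ : ∃ κ, κ = (A ∩ Q).card := ⟨_, rfl⟩
  have memA : ∀ w, w ∈ A ↔ w = v ∨ ∃ a, e a = w := by
    intro w
    rw [hAd, Finset.mem_insert, Finset.mem_image]
    simp
  have memQ : ∀ w, w ∈ Q ↔ w ∈ Set.range q := by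
    intro w
    rw [hQd, Finset.mem_image]
    simp
  have cA : A.card = r + 1 := by
    rw [hAd, Finset.card_insert_of_notMem, Finset.card_image_of_injective _ e.injective,
      Finset.card_univ, Fintype.card_fin]
    intro h
    rw [Finset.mem_image] at h
    obtain ⟨a, -, ha⟩ := h
    exact (he a).ne ha.symm
  have cQ : Q.card = l := by
    rw [hQd, Finset.card_image_of_injective _ cyc.inj, Finset.card_univ, ZMod.card]
  have hsum : O.card + r + 1 + l = N + κ := by
    have e1 := Finset.card_union_add_card_inter A Q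
    have e2 := Finset.card_add_card_compl (A ∪ Q)
    rw [← hOd, ← hN] at e2
    rw [cA, cQ, ← hκ] at e1
    omega
  have hAQ : ∀ w, w ∈ A → (w = v ∨ G.Adj v w) := by
    intro w hw
    rcases (memA w).1 hw with h | ⟨a, rfl⟩
    · exact Or.inl h
    · exact Or.inr (he a)
  have kball : κ ≤ {i | q i = v ∨ G.Adj v (q i)}.ncard := by
    rw [hκ]
    have hs : A ∩ Q ⊆ (Set.toFinset {i | q i = v ∨ G.Adj v (q i)}).image q := by
      intro w hw
      rw [Finset.mem_inter] at hw
      obtain ⟨i, rfl⟩ := (memQ w).1 hw.2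
      rw [Finset.mem_image]
      exact ⟨i, by rw [Set.mem_toFinset]; exact hAQ _ hw.1, rfl⟩
    refine (Finset.card_le_card hs).trans (Finset.card_image_le.trans ?_)
    rw [← Set.ncard_eq_toFinset_card']
  have hκ3 : κ ≤ 3 := kball.trans (hq.ball1 v)
  have hκ1 : 1 ≤ κ := by omega
  have hO1 : ∀ w, w ∉ Set.range q → w ∉ O → (w = v ∨ G.Adj v w) := by
    intro w hw1 hw2
    rw [hOd, Finset.mem_compl, not_not, Finset.mem_union] at hw2
    rcases hw2 with h | h
    · exact hAQ w h
    · exact absurd ((memQ w).1 h) hw1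
  have hOQ : ∀ w ∈ O, w ∉ Set.range q := by
    intro w hw h
    rw [hOd, Finset.mem_compl, Finset.mem_union] at hw
    exact hw (Or.inr ((memQ w).2 h))
  have hnQ : ∀ w i, G.Adj w (q i) → G.Adj w (q (i + 1)) → w ∉ Set.range q := fun w i =>
    notQ hl cyc w i
  have α4 : {i | ∃ a, a ∉ Set.range q ∧ (a = v ∨ G.Adj v a) ∧ G.Adj a (q i) ∧
      G.Adj a (q (i + 1))}.ncard ≤ 4 := by
    apply hq.cov4
    have h1 : {i | q i = v ∨ G.Adj v (q i)}.ncard ≠ 0 := by omega
    obtain ⟨i, hi⟩ := Set.nonempty_of_ncard_ne_zero h1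
    exact ⟨i, hi⟩
  -- if v is a bad vertex of Q then kappa is at most two
  have K3 : ∀ i ∈ B, q i = v → κ ≤ 2 := by
    intro i hi hiv
    by_contra hcon
    have hs : A ∩ Q ⊆ {q (i - 1), q i, q (i + 1)} := by
      intro w hw
      rw [Finset.mem_inter] at hw
      obtain ⟨j, rfl⟩ := (memQ w).1 hw.2
      rw [Finset.mem_insert, Finset.mem_insert, Finset.mem_singleton]
      rcases hAQ _ hw.1 with h | h
      · right; left; rw [h, hiv]
      · rw [← hiv, cyc.adj] at h
        rcases h with h | h
        · right; right; rw [h]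
        · left
          have : i - 1 = j := by rw [h]; ring
          rw [this]
    have heq := Finset.eq_of_subset_of_card_le hs (by
      refine le_trans Finset.card_le_three ?_
      omega)
    have key : ∀ j, q j ∈ A ∩ Q → j ≠ i → ∃ w, G.Adj w (q i) ∧ G.Adj w (q j) := by
      intro j hj hji
      rcases (memA _).1 (Finset.mem_inter.1 hj).1 with h | ⟨a, ha⟩
      · exact absurd (cyc.inj (h.trans hiv.symm)) hji
      · obtain ⟨w, w1, w2⟩ := nb a
        exact ⟨w, by rw [hiv]; exact w1, by rw [← ha]; exact w2⟩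
    rcases (hB' i).1 hi with h | h
    · apply h
      rw [hT]
      exact key (i + 1) (by rw [heq]; simp) (s1 hl i).symm
    · apply h
      rw [hT]
      obtain ⟨w, w1, w2⟩ := key (i - 1) (by rw [heq]; simp) (s2 hl i)
      exact ⟨w, w2, by rw [sub_add_cancel]; exact w1⟩
  by_cases hδ : r + l = N
  · -- many short cycles
    have hrl : r = l := by omega
    subst hrl
    have hh' : holes G r ≤ 2 := hh r (by omega)
    have H3 : ∀ w, w ∉ Set.range q → ∀ i, G.Adj w (q (i - 1)) → G.Adj w (q i) →
        G.Adj w (q (i + 1)) → False := fun w hw i =>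
      no_three hl cyc hh' v (hq.ball1 v) e he w hw (hq.ball1 w) i
    have hm1 : ∀ w, w ∉ Set.range q → {i | G.Adj w (q i) ∧ G.Adj w (q (i + 1))}.ncard ≤ 1 :=
      fun w hw => cover_one hl w (hq.ball1 w) (H3 w hw)
    by_cases hvQ : v ∈ Set.range q
    · obtain ⟨i0, hi0⟩ := hvQ
      have hTc := Tbound q v O T hT hnQ hO1 hOQ 2 1
        (TA_two hl cyc v i0 hi0 hq.ball2 H3) hm1
      have := bad_count T B hB' 4 (by omega) (by norm_num) (by omega)
      omega
    · have hk2 := kball.trans (kap_two hl cyc v hvQ hq.ball2 H3)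
      have hTc := Tbound q v O T hT hnQ hO1 hOQ 4 1 α4 hm1
      have := bad_count T B hB' 5 (by omega) (by norm_num) (by omega)
      have := C2 (fun i _ h => hvQ ⟨i, h⟩)
      omega
  · have hTc := Tbound q v O T hT hnQ hO1 hOQ 4 2 α4 hq.cov1
    by_cases l7 : 7 ≤ l
    · by_cases hk : κ = 3
      · have := bad_count T B hB' 6 (by omega) (by norm_num) (by omega)
        have := C2 (fun i hi h => by have := K3 i hi h; omega)
        omega
      · have := bad_count T B hB' 4 (by omega) (by norm_num) (by omega)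
        omega
    · have hr78 : r = 7 ∨ r = 8 := by omega
      rcases hr78 with rfl | rfl
      · obtain ⟨c⟩ := hcol (by omega)
        have twoc : ∀ x y z : V, G.Adj v x → G.Adj v y → G.Adj v z → G.Adj x y → G.Adj y z →
            c z = c x := by
          intro x y z a b d e f
          have e1 := c.valid a
          have e2 := c.valid b
          have e3 := c.valid d
          have e4 := c.valid e
          have e5 := c.valid f
          rw [Ne, Fin.ext_iff] at e1 e2 e3 e4 e5
          rw [Fin.ext_iff]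
          have := (c v).isLt
          have := (c x).isLt
          have := (c y).isLt
          have := (c z).isLt
          omega
        have e1 := twoc _ _ _ (he 0) (he 1) (he 2) ((hee 0 1).2 (by decide))
          ((hee 1 2).2 (by decide))
        have e2 := twoc _ _ _ (he 2) (he 3) (he 4) ((hee 2 3).2 (by decide))
          ((hee 3 4).2 (by decide))
        have e3 := twoc _ _ _ (he 4) (he 5) (he 6) ((hee 4 5).2 (by decide))
          ((hee 5 6).2 (by decide))
        exact c.valid ((hee 6 0).2 (by decide)) (e3.trans (e2.trans e1))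
      · have := bad_count T B hB' 4 (by omega) (by norm_num) (by omega)
        omega

end Pool.Agent.P8H7.RC6
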