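import Pool.Agent.P8H79.RC.Stm4

/-!
# Project RC: the square of the cycle, all lengths at least 7
-/

set_option autoImplicit false

namespace Pool.Agent.P8H7.RC9

open Finset
open Pool.Agent.P8H79.RC

variable {n : ℕ}

theorem zz (z : ℤ) (h : (z : ZMod n) = 0) (h2 : |z| < n) : z = 0 :=
  Int.eq_zero_of_abs_lt_dvd ((CharP.intCast_eq_zero_iff (ZMod n) n z).1 h) h2

theorem adj_iff (hn : 7 ≤ n) (a b : ZMod n) :
    (Csq n).Adj a b ↔ ∃ s : ℤ, s ≠ 0 ∧ |s| ≤ 2 ∧ b = a + (s : ZMod n) := by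
  unfold Csq
  rw [SimpleGraph.fromRel_adj]
  constructor
  · rintro ⟨-, (h | h) | (h | h)⟩
    · exact ⟨1, by norm_num, by norm_num, by push_cast; rw [← h]; ring⟩
    · exact ⟨2, by norm_num, by norm_num, by push_cast; rw [← h]; ring⟩
    · exact ⟨-1, by norm_num, by norm_num, by push_cast; rw [← h]; ring⟩
    · exact ⟨-2, by norm_num, by norm_num, by push_cast; rw [← h]; ring⟩
  · rintro ⟨s, h0, h2, rfl⟩
    constructor
    · intro h
      apply h0
      apply zz (n := n) s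
      · have h3 : a + (s : ZMod n) - a = 0 := by rw [← h]; ring
        rw [← h3]; ring
      · omega
    · rw [abs_le] at h2
      obtain ⟨h3, h4⟩ := h2
      have h5 : s = 1 ∨ s = 2 ∨ s = -1 ∨ s = -2 := by omega
      rcases h5 with rfl | rfl | rfl | rfl
      · left; left; push_cast; ring
      · left; right; push_cast; ring
      · right; left; push_cast; ring
      · right; right; push_cast; ring

theorem adj_off (hn : 7 ≤ n) (a : ZMod n) (u v : ℤ) (hu : |u| ≤ 2) (hv : |v| ≤ 2)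
    (h : (Csq n).Adj (a + u) (a + v)) : v - u ≠ 0 ∧ |v - u| ≤ 2 := by
  obtain ⟨s, h0, h2, h3⟩ := (adj_iff hn _ _).1 h
  have h4 : v - u - s = 0 := by
    apply zz (n := n)
    · push_cast
      have : a + (v : ZMod n) - a = (u : ZMod n) + s := by rw [h3]; ring
      have h5 : (v : ZMod n) = u + s := by rw [← this]; ring
      rw [h5]; ring
    · rw [abs_le] at hu hv h2
      rw [abs_lt]
      constructor <;> omega
  have h5 : s = v - u := by omega
  subst h5
  exact ⟨h0, h2⟩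

theorem cf4 (hn : 7 ≤ n) : (Csq n).CliqueFree 4 := by
  classical
  intro S hS
  have hne : S.Nonempty := by
    rw [← Finset.card_pos, hS.card_eq]; norm_num
  obtain ⟨a, ha⟩ := hne
  have hc : (S.erase a).card = 3 := by rw [Finset.card_erase_of_mem ha, hS.card_eq]
  obtain ⟨b, c, d, hbc, hbd, hcd, he⟩ := Finset.card_eq_three.1 hc
  have mem : ∀ x, x ∈ S.erase a → x ∈ S ∧ a ≠ x := fun x hx =>
    ⟨Finset.mem_of_mem_erase hx, (Finset.ne_of_mem_erase hx).symm⟩
  have hb := mem b (by rw [he]; simp)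
  have hc := mem c (by rw [he]; simp)
  have hd := mem d (by rw [he]; simp)
  have cl := hS.isClique
  obtain ⟨u, u0, u2, rfl⟩ := (adj_iff hn _ _).1 (cl ha hb.1 hb.2)
  obtain ⟨v, v0, v2, rfl⟩ := (adj_iff hn _ _).1 (cl ha hc.1 hc.2)
  obtain ⟨w, w0, w2, rfl⟩ := (adj_iff hn _ _).1 (cl ha hd.1 hd.2)
  obtain ⟨p1, p2⟩ := adj_off hn a u v u2 v2 (cl hb.1 hc.1 hbc)
  obtain ⟨q1, q2⟩ := adj_off hn a u w u2 w2 (cl hb.1 hd.1 hbd)
  obtain ⟨r1, r2⟩ := adj_off hn a v w v2 w2 (cl hc.1 hd.1 hcd)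
  rw [abs_le] at u2 v2 w2 p2 q2 r2
  omega

theorem adj_add (hn : 7 ≤ n) (a : ZMod n) (u v : ℤ) (h0 : v - u ≠ 0) (h2 : |v - u| ≤ 2) :
    (Csq n).Adj (a + u) (a + v) :=
  (adj_iff hn _ _).2 ⟨v - u, h0, h2, by push_cast; ring⟩

theorem ne_add (hn : 7 ≤ n) (a : ZMod n) (u v : ℤ) (h0 : v - u ≠ 0) (h2 : |v - u| ≤ 6) :
    a + (u : ZMod n) ≠ a + v := by
  intro h
  apply h0
  apply zz (n := n)
  · push_cast
    have : a + (v : ZMod n) - (a + u) = 0 := by rw [h]; ring
    rw [← this]; ring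
  · have : (7 : ℤ) ≤ n := by exact_mod_cast hn
    omega

open Classical in
/-- the cliques counted by `cl` -/
noncomputable def fam {V : Type} (G : SimpleGraph V) (T : Finset V) (k : ℕ) : Finset (Finset V) :=
  (T.powersetCard k).filter (fun S : Finset V => G.IsClique (S : Set V))

theorem cl_eq_fam {V : Type} (G : SimpleGraph V) (T : Finset V) (k : ℕ) :
    cl G T k = (fam G T k).card := rfl

theorem mem_fam {V : Type} (G : SimpleGraph V) (T : Finset V) (k : ℕ) (S : Finset V) :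
    S ∈ fam G T k ↔ (S ⊆ T ∧ S.card = k) ∧ G.IsClique (S : Set V) := by
  classical
  unfold fam
  rw [Finset.mem_filter, Finset.mem_powersetCard]

theorem edges [NeZero n] (hn : 7 ≤ n) : cl (Csq n) Finset.univ 2 = 2 * n := by
  rw [cl_eq_fam]
  symm
  have hcard : (Finset.univ : Finset (ZMod n × Bool)).card = 2 * n := by
    rw [Finset.card_univ, Fintype.card_prod, ZMod.card, Fintype.card_bool]; ring
  rw [← hcard]
  have kk : ∀ t : Bool, (if t then (2 : ℤ) else 1) = 1 ∨ (if t then (2 : ℤ) else 1) = 2 := by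
    intro t; cases t <;> simp
  apply Finset.card_nbij (fun p => {p.1, p.1 + ((if p.2 then (2 : ℤ) else 1 : ℤ) : ZMod n)})
  · rintro ⟨i, t⟩ -
    rw [Finset.mem_coe, mem_fam]
    have ad : (Csq n).Adj i (i + ((if t then (2 : ℤ) else 1 : ℤ) : ZMod n)) := by
      have := adj_add hn i 0 (if t then (2 : ℤ) else 1) (by rcases kk t with h | h <;> rw [h] <;> norm_num)
        (by rcases kk t with h | h <;> rw [h] <;> norm_num)
      simpa using this
    refine ⟨⟨Finset.subset_univ _, Finset.card_pair ad.ne⟩, ?_⟩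
    intro x hx y hy hxy
    simp only [Finset.coe_insert, Finset.coe_singleton, Set.mem_insert_iff,
      Set.mem_singleton_iff] at hx hy
    rcases hx with rfl | rfl <;> rcases hy with rfl | rfl
    · exact absurd rfl hxy
    · exact ad
    · exact ad.symm
    · exact absurd rfl hxy
  · rintro ⟨i, t⟩ - ⟨j, t'⟩ - h
    simp only at h
    have h1 : i ∈ ({j, j + ((if t' then (2 : ℤ) else 1 : ℤ) : ZMod n)} : Finset (ZMod n)) := by
      rw [← h]; simp
    have h2 : i + ((if t then (2 : ℤ) else 1 : ℤ) : ZMod n) ∈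
        ({j, j + ((if t' then (2 : ℤ) else 1 : ℤ) : ZMod n)} : Finset (ZMod n)) := by
      rw [← h]; simp
    rw [Finset.mem_insert, Finset.mem_singleton] at h1 h2
    have k1 := kk t
    have k2 := kk t'
    obtain ⟨A, hA⟩ : ∃ A : ℤ, A = (if t then (2 : ℤ) else 1) := ⟨_, rfl⟩
    obtain ⟨B, hB⟩ : ∃ B : ℤ, B = (if t' then (2 : ℤ) else 1) := ⟨_, rfl⟩
    rw [← hA] at k1 h2
    rw [← hB] at k2 h1 h2
    have n10 : (7 : ℤ) ≤ n := by exact_mod_cast hn
    rcases h1 with rfl | h1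
    · rcases h2 with h2 | h2
      · exfalso
        have := zz (n := n) A (by
          have : i + (A : ZMod n) - i = 0 := by rw [h2]; ring
          rw [← this]; ring) (by rcases k1 with h | h <;> rw [h] <;> norm_num <;> omega)
        omega
      · have e := zz (n := n) (A - B) (by
          push_cast
          have : i + (A : ZMod n) - (i + B) = 0 := by rw [h2]; ring
          rw [← this]; ring) (by
            rcases k1 with h | h <;> rcases k2 with h' | h' <;> rw [h, h'] <;> norm_num <;> omega)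
        have e2 : A = B := by omega
        rw [hA, hB] at e2
        have : t = t' := by
          revert e2
          cases t <;> cases t' <;> simp
        rw [this]
    · exfalso
      subst h1
      rcases h2 with h2 | h2
      · have e := zz (n := n) (A + B) (by
          push_cast
          have : j + (B : ZMod n) + A - j = 0 := by rw [h2]; ring
          rw [← this]; ring) (by
            rcases k1 with h | h <;> rcases k2 with h' | h' <;> rw [h, h'] <;> norm_num <;> omega)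
        omega
      · have e := zz (n := n) A (by
          have : j + (B : ZMod n) + A - (j + B) = 0 := by rw [h2]; ring
          rw [← this]; ring) (by rcases k1 with h | h <;> rw [h] <;> norm_num <;> omega)
        omega
  · intro S hS
    rw [Finset.mem_coe, mem_fam] at hS
    obtain ⟨⟨-, hc⟩, hcl⟩ := hS
    obtain ⟨a, b, hab, rfl⟩ := Finset.card_eq_two.1 hc
    have ad : (Csq n).Adj a b := hcl (by simp) (by simp) hab
    obtain ⟨s, h0, h2, rfl⟩ := (adj_iff hn _ _).1 ad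
    rw [abs_le] at h2
    have h5 : s = 1 ∨ s = 2 ∨ s = -1 ∨ s = -2 := by omega
    rcases h5 with rfl | rfl | rfl | rfl
    · exact ⟨(a, false), by simp, by simp⟩
    · exact ⟨(a, true), by simp, by simp⟩
    · refine ⟨(a + ((-1 : ℤ) : ZMod n), false), by simp, ?_⟩
      simp only [Bool.false_eq_true, if_false]
      rw [Finset.pair_comm]
      congr 1
      · push_cast; ring
    · refine ⟨(a + ((-2 : ℤ) : ZMod n), true), by simp, ?_⟩
      simp only [if_true]
      rw [Finset.pair_comm]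
      congr 1
      · push_cast; ring

theorem tri_sub (hn : 7 ≤ n) (a b c : ZMod n) (hab : (Csq n).Adj a b) (hac : (Csq n).Adj a c)
    (hbc : (Csq n).Adj b c) : ∃ i : ZMod n, ({a, b, c} : Finset (ZMod n)) = {i, i + 1, i + 2} := by
  obtain ⟨u, u0, u2, rfl⟩ := (adj_iff hn _ _).1 hab
  obtain ⟨v, v0, v2, rfl⟩ := (adj_iff hn _ _).1 hac
  obtain ⟨p1, p2⟩ := adj_off hn a u v u2 v2 hbc
  rw [abs_le] at u2 v2 p2
  have h : (u = 1 ∧ v = 2) ∨ (u = 2 ∧ v = 1) ∨ (u = 1 ∧ v = -1) ∨ (u = -1 ∧ v = 1) ∨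
      (u = -1 ∧ v = -2) ∨ (u = -2 ∧ v = -1) := by omega
  have key : ∀ i x y z : ZMod n, ((x = i ∧ y = i + 1 ∧ z = i + 2) ∨ (x = i ∧ z = i + 1 ∧ y = i + 2) ∨
      (y = i ∧ x = i + 1 ∧ z = i + 2) ∨ (z = i ∧ x = i + 1 ∧ y = i + 2) ∨
      (y = i ∧ z = i + 1 ∧ x = i + 2) ∨ (z = i ∧ y = i + 1 ∧ x = i + 2)) →
      ({x, y, z} : Finset (ZMod n)) = {i, i + 1, i + 2} := by
    intro i x y z h
    ext t
    simp only [Finset.mem_insert, Finset.mem_singleton]
    rcases h with ⟨rfl, rfl, rfl⟩ | ⟨rfl, rfl, rfl⟩ | ⟨rfl, rfl, rfl⟩ | ⟨rfl, rfl, rfl⟩ |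
      ⟨rfl, rfl, rfl⟩ | ⟨rfl, rfl, rfl⟩ <;> tauto
  rcases h with ⟨rfl, rfl⟩ | ⟨rfl, rfl⟩ | ⟨rfl, rfl⟩ | ⟨rfl, rfl⟩ | ⟨rfl, rfl⟩ | ⟨rfl, rfl⟩
  · refine ⟨a, key _ _ _ _ (Or.inl ⟨rfl, ?_, ?_⟩)⟩ <;> push_cast <;> ring
  · refine ⟨a, key _ _ _ _ (Or.inr (Or.inl ⟨rfl, ?_, ?_⟩))⟩ <;> push_cast <;> ring
  · refine ⟨a - 1, key _ _ _ _ (Or.inr (Or.inr (Or.inr (Or.inl ⟨?_, ?_, ?_⟩))))⟩ <;> push_cast <;>
      ring
  · refine ⟨a - 1, key _ _ _ _ (Or.inr (Or.inr (Or.inl ⟨?_, ?_, ?_⟩)))⟩ <;> push_cast <;> ring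
  · refine ⟨a - 2, key _ _ _ _ (Or.inr (Or.inr (Or.inr (Or.inr (Or.inr ⟨?_, ?_, ?_⟩)))))⟩ <;>
      push_cast <;> ring
  · refine ⟨a - 2, key _ _ _ _ (Or.inr (Or.inr (Or.inr (Or.inr (Or.inl ⟨?_, ?_, ?_⟩)))))⟩ <;>
      push_cast <;> ring

theorem tris [NeZero n] (hn : 7 ≤ n) : cl (Csq n) Finset.univ 3 = n := by
  rw [cl_eq_fam]
  symm
  have hcard : (Finset.univ : Finset (ZMod n)).card = n := by
    rw [Finset.card_univ, ZMod.card]
  conv_lhs => rw [← hcard]
  have ad : ∀ (i : ZMod n) (u v : ℤ), v - u ≠ 0 → |v - u| ≤ 2 → (Csq n).Adj (i + u) (i + v) :=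
    fun i u v => adj_add hn i u v
  have a01 : ∀ i : ZMod n, (Csq n).Adj i (i + 1) := fun i => by
    have := ad i 0 1 (by norm_num) (by norm_num)
    simpa using this
  have a02 : ∀ i : ZMod n, (Csq n).Adj i (i + 2) := fun i => by
    have := ad i 0 2 (by norm_num) (by norm_num)
    simpa using this
  have a12 : ∀ i : ZMod n, (Csq n).Adj (i + 1) (i + 2) := fun i => by
    have := ad i 1 2 (by norm_num) (by norm_num)
    simpa using this
  apply Finset.card_nbij (fun i => ({i, i + 1, i + 2} : Finset (ZMod n)))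
  · intro i _
    rw [Finset.mem_coe, mem_fam]
    have h3 : (Csq n).IsNClique 3 ({i, i + 1, i + 2} : Finset (ZMod n)) :=
      SimpleGraph.is3Clique_iff.2 ⟨i, i + 1, i + 2, a01 i, a02 i, a12 i, rfl⟩
    exact ⟨⟨Finset.subset_univ _, h3.card_eq⟩, h3.isClique⟩
  · intro i _ j _ h
    simp only at h
    have h0 : i ∈ ({j, j + 1, j + 2} : Finset (ZMod n)) := by rw [← h]; simp
    have h1 : i + 1 ∈ ({j, j + 1, j + 2} : Finset (ZMod n)) := by rw [← h]; simp
    have h2 : i + 2 ∈ ({j, j + 1, j + 2} : Finset (ZMod n)) := by rw [← h]; simp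
    simp only [Finset.mem_insert, Finset.mem_singleton] at h0 h1 h2
    have no : ∀ k : ℤ, k ≠ 0 → |k| ≤ 6 → ((k : ℤ) : ZMod n) ≠ 0 := by
      intro k k0 k6 hk
      apply k0
      apply zz (n := n) k hk
      have : (7 : ℤ) ≤ n := by exact_mod_cast hn
      omega
    rcases h0 with rfl | rfl | rfl
    · rfl
    · exfalso
      rcases h2 with h2 | h2 | h2
      · apply no 3 (by norm_num) (by norm_num)
        have : j + 1 + 2 - j = 0 := by rw [h2]; ring
        rw [← this]; push_cast; ring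
      · apply no 2 (by norm_num) (by norm_num)
        have : j + 1 + 2 - (j + 1) = 0 := by rw [h2]; ring
        rw [← this]; push_cast; ring
      · apply no 1 (by norm_num) (by norm_num)
        have : j + 1 + 2 - (j + 2) = 0 := by rw [h2]; ring
        rw [← this]; push_cast; ring
    · exfalso
      rcases h1 with h1 | h1 | h1
      · apply no 3 (by norm_num) (by norm_num)
        have : j + 2 + 1 - j = 0 := by rw [h1]; ring
        rw [← this]; push_cast; ring
      · apply no 2 (by norm_num) (by norm_num)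
        have : j + 2 + 1 - (j + 1) = 0 := by rw [h1]; ring
        rw [← this]; push_cast; ring
      · apply no 1 (by norm_num) (by norm_num)
        have : j + 2 + 1 - (j + 2) = 0 := by rw [h1]; ring
        rw [← this]; push_cast; ring
  · intro S hS
    rw [Finset.mem_coe, mem_fam] at hS
    obtain ⟨⟨-, hc⟩, hcl⟩ := hS
    obtain ⟨a, b, c, hab, hac, hbc, rfl⟩ := Finset.card_eq_three.1 hc
    obtain ⟨i, hi⟩ := tri_sub hn a b c (hcl (by simp) (by simp) hab) (hcl (by simp) (by simp) hac)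
      (hcl (by simp) (by simp) hbc)
    exact ⟨i, by simp, hi.symm⟩

/-- **SQA** -/
theorem sqa9 (n : ℕ) [NeZero n] (hn : 7 ≤ n) : (Csq n).CliqueFree 4 ∧
    cl (Csq n) Finset.univ 2 = 2 * n ∧ cl (Csq n) Finset.univ 3 = n :=
  ⟨cf4 hn, edges hn, tris hn⟩

theorem adj_strip (hn : 7 ≤ n) (a b : ZMod n) : (Csq n).Adj a b ↔
    ∃ i : ZMod n, (a = i + 1 ∧ (b = i ∨ b = i - 1)) ∨ (b = i + 1 ∧ (a = i ∨ a = i - 1)) := by
  rw [adj_iff hn]
  constructor
  · rintro ⟨s, h0, h2, rfl⟩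
    rw [abs_le] at h2
    have h5 : s = 1 ∨ s = 2 ∨ s = -1 ∨ s = -2 := by omega
    rcases h5 with rfl | rfl | rfl | rfl
    · exact ⟨a, Or.inr ⟨by push_cast; ring, Or.inl rfl⟩⟩
    · exact ⟨a + 1, Or.inr ⟨by push_cast; ring, Or.inr (by ring)⟩⟩
    · exact ⟨a - 1, Or.inl ⟨by ring, Or.inl (by push_cast; ring)⟩⟩
    · exact ⟨a - 1, Or.inl ⟨by ring, Or.inr (by push_cast; ring)⟩⟩
  · rintro ⟨i, ⟨rfl, rfl | rfl⟩ | ⟨rfl, rfl | rfl⟩⟩
    · exact ⟨-1, by norm_num, by norm_num, by push_cast; ring⟩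
    · exact ⟨-2, by norm_num, by norm_num, by push_cast; ring⟩
    · exact ⟨1, by norm_num, by norm_num, by push_cast; ring⟩
    · exact ⟨2, by norm_num, by norm_num, by push_cast; ring⟩

/-- **SQD** -/
theorem sqd9 : (∀ n : ℕ, 7 ≤ n → IsStrip (Csq n) n (fun i => i) (fun i => i - 1)) ∧
  ∀ (V : Type) (G : SimpleGraph V) (n : ℕ), 7 ≤ n → ∀ x z : ZMod n → V, IsStrip G n x z →
    (∀ i, z (i + 1) = x i) → Nonempty (G ≃g Csq n) := by
  constructor
  · intro n hn
    exact ⟨Function.bijective_id, fun i => Or.inr (by ring), fun a b => adj_strip hn a b⟩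
  · intro V G n hn x z hs hz
    have hz' : ∀ i, z i = x (i - 1) := fun i => by
      have := hz (i - 1)
      rwa [sub_add_cancel] at this
    refine ⟨SimpleGraph.Iso.symm ⟨Equiv.ofBijective x hs.bij, ?_⟩⟩
    intro a b
    rw [adj_strip hn]
    show G.Adj (x a) (x b) ↔ _
    rw [hs.adj]
    constructor
    · rintro ⟨i, ⟨h1, h2 | h2⟩ | ⟨h1, h2 | h2⟩⟩
      · exact ⟨i, Or.inl ⟨hs.bij.1 h1, Or.inl (hs.bij.1 h2)⟩⟩
      · rw [hz'] at h2
        exact ⟨i, Or.inl ⟨hs.bij.1 h1, Or.inr (hs.bij.1 h2)⟩⟩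
      · exact ⟨i, Or.inr ⟨hs.bij.1 h1, Or.inl (hs.bij.1 h2)⟩⟩
      · rw [hz'] at h2
        exact ⟨i, Or.inr ⟨hs.bij.1 h1, Or.inr (hs.bij.1 h2)⟩⟩
    · rintro ⟨i, ⟨rfl, rfl | rfl⟩ | ⟨rfl, rfl | rfl⟩⟩
      · exact ⟨_, Or.inl ⟨rfl, Or.inl rfl⟩⟩
      · exact ⟨i, Or.inl ⟨rfl, Or.inr (hz' i).symm⟩⟩
      · exact ⟨_, Or.inr ⟨rfl, Or.inl rfl⟩⟩
      · exact ⟨i, Or.inr ⟨rfl, Or.inr (hz' i).symm⟩⟩

theorem fin3 (x0 x1 x2 x3 : Fin 3) (h1 : x0 ≠ x1) (h2 : x0 ≠ x2) (h3 : x1 ≠ x2) (h4 : x1 ≠ x3)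
    (h5 : x2 ≠ x3) : x3 = x0 := by
  rw [Ne, Fin.ext_iff] at h1 h2 h3 h4 h5
  rw [Fin.ext_iff]
  have := x0.isLt
  have := x1.isLt
  have := x2.isLt
  have := x3.isLt
  omega

/-- **SQC** -/
theorem sqc9 : ∀ (n : ℕ), 7 ≤ n → 3 ∣ n → cnt (Csq n) 3 = 6 := by
  intro n hn h3
  haveI : NeZero n := ⟨by omega⟩
  obtain ⟨π, -⟩ : ∃ π : ZMod n →+* ZMod 3, π = ZMod.castHom h3 (ZMod 3) := ⟨_, rfl⟩
  have hπ : ∀ a b, (Csq n).Adj a b → π a ≠ π b := by
    intro a b h
    obtain ⟨s, h0, h2, rfl⟩ := (adj_iff hn a b).1 h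
    rw [map_add, map_intCast]
    intro h4
    have h5 : ((s : ℤ) : ZMod 3) = 0 := by
      have : π a + (s : ZMod 3) - π a = 0 := by rw [← h4]; ring
      rw [← this]; ring
    apply h0
    exact zz (n := 3) s h5 (by push_cast; omega)
  let C : (ZMod 3 ≃ Fin 3) → (Csq n).Coloring (Fin 3) := fun σ =>
    SimpleGraph.Coloring.mk (fun a => σ (π a)) (fun {a b} h he => hπ a b h (σ.injective he))
  have hC : ∀ σ a, C σ a = σ (π a) := fun _ _ => rfl
  have hval : ∀ x : ZMod 3, π ((x.val : ℕ) : ZMod n) = x := fun x => by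
    rw [map_natCast, ZMod.natCast_zmod_val]
  have hinj : Function.Injective C := by
    intro σ τ h
    refine Equiv.ext fun x => ?_
    have h1 : C σ ((x.val : ℕ) : ZMod n) = C τ ((x.val : ℕ) : ZMod n) := by rw [h]
    rw [hC, hC, hval] at h1
    exact h1
  have hsurj : Function.Surjective C := by
    intro c
    have dist : ∀ a b : ZMod n, (Csq n).Adj a b → c a ≠ c b := fun a b h => c.valid h
    have per : ∀ k : ZMod n, c (k + 3) = c k := by
      intro k
      have e1 : ∀ (a b : ZMod n) (s : ℤ), s ≠ 0 → |s| ≤ 2 → b = a + (s : ZMod n) → c a ≠ c b :=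
        fun a b s h0 h2 he => dist a b ((adj_iff hn a b).2 ⟨s, h0, h2, he⟩)
      have d1 := e1 k (k + 1) 1 (by norm_num) (by norm_num) (by push_cast; ring)
      have d2 := e1 k (k + 2) 2 (by norm_num) (by norm_num) (by push_cast; ring)
      have d3 := e1 (k + 1) (k + 2) 1 (by norm_num) (by norm_num) (by push_cast; ring)
      have d4 := e1 (k + 1) (k + 3) 2 (by norm_num) (by norm_num) (by push_cast; ring)
      have d5 := e1 (k + 2) (k + 3) 1 (by norm_num) (by norm_num) (by push_cast; ring)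
      exact fin3 _ _ _ _ d1 d2 d3 d4 d5
    have red : ∀ k : ℕ, c ((k : ℕ) : ZMod n) = c (((k % 3 : ℕ)) : ZMod n) := by
      intro k
      induction k using Nat.strong_induction_on with
      | _ k ih =>
        by_cases hk : k < 3
        · rw [Nat.mod_eq_of_lt hk]
        · obtain ⟨j, rfl⟩ : ∃ j, k = j + 3 := ⟨k - 3, by omega⟩
          rw [Nat.add_mod_right, ← ih j (by omega)]
          push_cast
          exact per _
    let f : ZMod 3 → Fin 3 := fun x => c ((x.val : ℕ) : ZMod n)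
    have hf : Function.Injective f := by
      intro x y h
      by_contra hxy
      refine dist ((x.val : ℕ) : ZMod n) ((y.val : ℕ) : ZMod n) ((adj_iff hn _ _).2
        ⟨(y.val : ℤ) - x.val, ?_, ?_, by push_cast; ring⟩) h
      · intro h0
        apply hxy
        apply ZMod.val_injective 3
        omega
      · have h1 := ZMod.val_lt x
        have h2 := ZMod.val_lt y
        rw [abs_le]
        constructor <;> omega
    have hb : Function.Bijective f :=
      (Fintype.bijective_iff_injective_and_card f).2 ⟨hf, by rw [ZMod.card, Fintype.card_fin]⟩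
    refine ⟨Equiv.ofBijective f hb, ?_⟩
    ext a
    have h1 : a = ((a.val : ℕ) : ZMod n) := (ZMod.natCast_zmod_val a).symm
    rw [hC]
    have h2 : π a = ((a.val : ℕ) : ZMod 3) := by
      conv_lhs => rw [h1]
      rw [map_natCast]
    have h4 : (Equiv.ofBijective f hb) (π a) = c a := by
      show c (((π a).val : ℕ) : ZMod n) = c a
      rw [h2, ZMod.val_natCast, ← red a.val, ← h1]
    rw [h4]
  unfold cnt
  rw [← Nat.card_congr (Equiv.ofBijective C ⟨hinj, hsurj⟩), Nat.card_eq_fintype_card,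
    Fintype.card_equiv (show ZMod 3 ≃ Fin 3 from Equiv.refl _), ZMod.card]
  rfl

theorem one_ne {k : ℕ} : (1 : Fin (k + 2)) ≠ 0 := by
  intro h
  have := congrArg Fin.val h
  simp at this

theorem two_ne {k : ℕ} (hk : 2 ≤ k) : (1 + 1 : Fin (k + 2)) ≠ 0 := by
  intro h
  have := congrArg Fin.val h
  rw [Fin.val_add, Fin.val_one, Fin.val_zero, Nat.mod_eq_of_lt (by omega)] at this
  omega

theorem three_ne {k : ℕ} (hk : 2 ≤ k) : (1 + 1 + 1 : Fin (k + 2)) ≠ 0 := by
  intro h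
  have := congrArg Fin.val h
  rw [Fin.val_add, Fin.val_add, Fin.val_one, Fin.val_zero, Nat.mod_eq_of_lt (a := 1 + 1) (by omega),
    Nat.mod_eq_of_lt (by omega)] at this
  omega

/-- **SQB** -/
theorem sqb9 : ∀ (n : ℕ), 7 ≤ n → NoShort (Csq n) n := by
  intro n hn j hj4 hjn
  have : NeZero n := ⟨by omega⟩
  refine ⟨fun e => ?_⟩
  obtain ⟨k, rfl⟩ : ∃ k, j = k + 2 := ⟨j - 2, by omega⟩
  have hk : 2 ≤ k := by omega
  obtain ⟨c, hc⟩ : ∃ c : ℕ → Fin (k + 2), c = fun i => Fin.ofNat (k + 2) i := ⟨_, rfl⟩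
  have c1 : ∀ i, c (i + 1) = c i + 1 := by
    intro i
    rw [hc]
    apply Fin.ext
    simp only [Fin.ofNat, Fin.val_add, Fin.val_one]
    exact (Nat.mod_add_mod _ _ _).symm
  have cp : ∀ i, c (i + (k + 2)) = c i := by
    intro i
    rw [hc]
    apply Fin.ext
    simp only [Fin.ofNat, Nat.add_mod_right]
  have hadj : ∀ u : Fin (k + 2), (Csq n).Adj (e u) (e (u + 1)) := by
    intro u
    rw [e.map_rel_iff, SimpleGraph.cycleGraph_adj]
    right
    rw [add_sub_cancel_left]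
  have hs : ∀ u : Fin (k + 2), ∃ s : ℤ, s ≠ 0 ∧ |s| ≤ 2 ∧ e (u + 1) = e u + (s : ZMod n) := fun u =>
    (adj_iff hn _ _).1 (hadj u)
  choose s s0 s2 se using hs
  obtain ⟨F, hF⟩ : ∃ F : ℕ → ℤ, F = fun i => ∑ t ∈ Finset.range i, s (c t) := ⟨_, rfl⟩
  have F1 : ∀ i, F (i + 1) = F i + s (c i) := fun i => by rw [hF]; exact Finset.sum_range_succ _ _
  have FE : ∀ i, e (c i) = e (c 0) + (F i : ZMod n) := by
    intro i
    induction i with
    | zero =>
      have : F 0 = 0 := by rw [hF]; simp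
      rw [this]; simp
    | succ i ih =>
      rw [c1, se, ih, F1]
      push_cast
      ring
  have Fd : ∀ i t, |F (i + t) - F i| ≤ 2 * t := by
    intro i t
    induction t with
    | zero => simp
    | succ t ih =>
      rw [← add_assoc, F1]
      have := s2 (c (i + t))
      rw [abs_le] at this ih ⊢
      push_cast
      constructor <;> linarith
  have Fp : ∀ i, F (i + (k + 2)) = F i := by
    intro i
    have h1 : F (i + (k + 2)) - F i = 0 := by
      apply zz (n := n)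
      · push_cast
        have h2 := FE (i + (k + 2))
        rw [cp, FE i] at h2
        have : (F i : ZMod n) = (F (i + (k + 2)) : ZMod n) := add_left_cancel h2
        rw [this]; ring
      · have h2 := Fd i (k + 2)
        push_cast at h2 ⊢
        have h3 : (2 * (k + 2) : ℤ) < n := by exact_mod_cast hjn
        linarith
    linarith
  obtain ⟨m, hm, hmax⟩ := Finset.exists_max_image (Finset.Icc 1 (k + 2)) F ⟨1, by simp⟩
  rw [Finset.mem_Icc] at hm
  obtain ⟨p, rfl⟩ : ∃ p, m = p + 1 := ⟨m - 1, by omega⟩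
  have g1 : F p ≤ F (p + 1) := by
    rcases Nat.eq_zero_or_pos p with h | h
    · subst h
      have := Fp 0
      rw [zero_add] at this
      rw [← this]
      exact hmax _ (by rw [Finset.mem_Icc]; omega)
    · exact hmax _ (by rw [Finset.mem_Icc]; omega)
  have g2 : F (p + 2) ≤ F (p + 1) := by
    by_cases h : p + 2 ≤ k + 2
    · exact hmax _ (by rw [Finset.mem_Icc]; omega)
    · have h5 : p + 2 = 1 + (k + 2) := by omega
      rw [h5, Fp]
      exact hmax _ (by rw [Finset.mem_Icc]; omega)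
  have u1 := F1 p
  have u2 : F (p + 2) = F (p + 1) + s (c (p + 1)) := F1 (p + 1)
  have v1 := s0 (c p)
  have v2 := s2 (c p)
  have w1 := s0 (c (p + 1))
  have w2 := s2 (c (p + 1))
  rw [abs_le] at v2 w2
  have hD : F (p + 2) - F p = 0 ∨ F (p + 2) - F p = 1 ∨ F (p + 2) - F p = -1 := by omega
  have hc2 : c (p + 2) = c p + 1 + 1 := by
    rw [show p + 2 = p + 1 + 1 by ring, c1, c1]
  have hE : e (c (p + 2)) = e (c p) + ((F (p + 2) - F p : ℤ) : ZMod n) := by
    rw [FE (p + 2), FE p]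
    push_cast
    ring
  by_cases h0 : F (p + 2) - F p = 0
  · rw [h0, Int.cast_zero, add_zero] at hE
    have h6 := e.injective hE
    rw [hc2, add_assoc] at h6
    exact two_ne hk (add_eq_left.1 h6)
  · have ha : (Csq n).Adj (e (c p)) (e (c (p + 2))) :=
      (adj_iff hn _ _).2 ⟨_, h0, by rw [abs_le]; omega, hE⟩
    rw [e.map_rel_iff, SimpleGraph.cycleGraph_adj, hc2] at ha
    rcases ha with h | h
    · have h6 : (1 + 1 + 1 : Fin (k + 2)) = 0 := by
        have h7 : c p - (c p + 1 + 1) + (1 + 1) = 0 := by abel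
        rw [h] at h7
        rw [← h7]; abel
      exact three_ne hk h6
    · have h6 : (1 : Fin (k + 2)) = 0 := by
        have h7 : c p + 1 + 1 - c p = 1 + 1 := by abel
        rw [h7] at h
        exact add_eq_left.1 h
      exact one_ne h6

/-- **SQ9** -/
theorem sq9 : S_SQ9 := fun n _ hn => ⟨sqa9 n hn, sqb9 n hn, fun h => sqc9 n hn h, sqd9.1 n hn,
  fun V G x z hs hz => sqd9.2 V G n hn x z hs hz⟩

end Pool.Agent.P8H7.RC9
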