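import Pool.Agent.P8H79.RC.Stm4
import Pool.Agent.P8H1.RC.Nb1
import Pool.Agent.P8H1.RC.Emb
import Pool.Agent.P8H1.RC.Link

/-!
# Project RC, package W9: nine vertices
-/

set_option autoImplicit false

namespace Pool.Agent.P8H7.RC9

open Finset
open Pool.Agent.P8H79.RC

open Classical in
/-- the indicator of the adjacency -/
noncomputable def A {V : Type} (G : SimpleGraph V) (x y : V) : ℕ := if G.Adj x y then 1 else 0

section
variable {V : Type} {G : SimpleGraph V}

theorem A_le (x y : V) : A G x y ≤ 1 := by
  unfold A; split_ifs <;> omega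

theorem A_one {x y : V} (h : G.Adj x y) : A G x y = 1 := by
  unfold A; rw [if_pos h]

theorem A_zero {x y : V} (h : ¬ G.Adj x y) : A G x y = 0 := by
  unfold A; rw [if_neg h]

theorem A_symm (x y : V) : A G x y = A G y x := by
  by_cases h : G.Adj x y
  · rw [A_one h, A_one h.symm]
  · rw [A_zero h, A_zero fun h' => h h'.symm]

theorem A_self (x : V) : A G x x = 0 := A_zero (G.loopless.irrefl x)

theorem sumA [Fintype V] : ∑ x, ∑ y, A G x y = 2 * cl G Finset.univ 2 := by
  classical
  rw [Pool.Agent.P8H1.RC.edge_card, ← G.sum_degrees_eq_twice_card_edges]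
  refine Finset.sum_congr rfl fun x _ => ?_
  unfold SimpleGraph.degree
  rw [SimpleGraph.neighborFinset_eq_filter, Finset.card_filter]
  refine Finset.sum_congr rfl fun y _ => ?_
  unfold A
  congr

theorem ccA [Fintype V] (a b : V) : cc G a b = ∑ x, A G a x * A G b x := by
  classical
  unfold cc
  have h1 : {x : V | G.Adj a x ∧ G.Adj b x} =
      ((Finset.univ.filter fun x => G.Adj a x ∧ G.Adj b x : Finset V) : Set V) := by
    ext x; simp
  rw [h1, Set.ncard_coe_finset, Finset.card_filter]
  refine Finset.sum_congr rfl fun x _ => ?_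
  by_cases h1 : G.Adj a x
  · by_cases h2 : G.Adj b x
    · rw [if_pos ⟨h1, h2⟩, A_one h1, A_one h2]
    · rw [if_neg fun h => h2 h.2, A_zero h2, mul_zero]
  · rw [if_neg fun h => h1 h.1, A_zero h1, zero_mul]

/-- four pairwise adjacent vertices -/
theorem no_k4 (h : G.CliqueFree 4) {a b c d : V} (ab : G.Adj a b) (ac : G.Adj a c) (ad : G.Adj a d)
    (bc : G.Adj b c) (bd : G.Adj b d) (cd : G.Adj c d) : False := by
  classical
  refine h {a, b, c, d} ?_
  rw [SimpleGraph.isNClique_iff]
  constructor
  · intro p hp q hq hpq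
    simp only [Finset.coe_insert, Finset.coe_singleton, Set.mem_insert_iff,
      Set.mem_singleton_iff] at hp hq
    rcases hp with rfl | rfl | rfl | rfl <;> rcases hq with rfl | rfl | rfl | rfl <;>
      first
      | exact absurd rfl hpq
      | exact ab
      | exact ac
      | exact ad
      | exact bc
      | exact bd
      | exact cd
      | exact ab.symm
      | exact ac.symm
      | exact ad.symm
      | exact bc.symm
      | exact bd.symm
      | exact cd.symm
  · rw [Finset.card_insert_of_notMem, Finset.card_insert_of_notMem, Finset.card_insert_of_notMem,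
      Finset.card_singleton]
    · simpa using cd.ne
    · simp only [Finset.mem_insert, Finset.mem_singleton, not_or]
      exact ⟨bc.ne, bd.ne⟩
    · simp only [Finset.mem_insert, Finset.mem_singleton, not_or]
      exact ⟨ab.ne, ac.ne, ad.ne⟩

/-- if `v` is adjacent to all other vertices there are at least as many triangles as edges not
containing `v` -/
theorem cone [Fintype V] (v : V) (hv : ∀ x, x ≠ v → G.Adj v x) :
    cl G Finset.univ 2 + 1 ≤ Fintype.card V + cl G Finset.univ 3 := by
  classical
  rw [Pool.Agent.P8H1.RC.cl_cls, Pool.Agent.P8H1.RC.cl_cls]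
  have h1 := Finset.card_filter_add_card_filter_not (s := Pool.Agent.P8H1.RC.cls G 2)
    (fun S : Finset V => v ∈ S)
  have h2 : ((Pool.Agent.P8H1.RC.cls G 2).filter (fun S : Finset V => v ∈ S)).card ≤
      (Finset.univ.erase v).card := by
    refine le_trans (Finset.card_le_card ?_) (Finset.card_image_le (f := fun x => ({v, x} : Finset V)))
    intro S hS
    rw [Finset.mem_filter, Pool.Agent.P8H1.RC.mem_cls] at hS
    obtain ⟨⟨hc, -⟩, hvS⟩ := hS
    obtain ⟨a, b, hab, rfl⟩ := Finset.card_eq_two.1 hc
    rw [Finset.mem_image]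
    rw [Finset.mem_insert, Finset.mem_singleton] at hvS
    rcases hvS with rfl | rfl
    · exact ⟨b, by simp [hab.symm], rfl⟩
    · exact ⟨a, by simp [hab], Finset.pair_comm _ _⟩
  have h3 : ((Pool.Agent.P8H1.RC.cls G 2).filter (fun S : Finset V => ¬ v ∈ S)).card ≤
      (Pool.Agent.P8H1.RC.cls G 3).card := by
    refine Finset.card_le_card_of_injOn (fun S => insert v S) ?_ ?_
    · intro S hS
      rw [Finset.mem_coe, Finset.mem_filter, Pool.Agent.P8H1.RC.mem_cls] at hS
      obtain ⟨⟨hc, hcl⟩, hvS⟩ := hS
      rw [Finset.mem_coe, Pool.Agent.P8H1.RC.mem_cls]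
      refine ⟨by rw [Finset.card_insert_of_notMem hvS, hc], ?_⟩
      intro p hp q hq hpq
      rw [Finset.mem_coe, Finset.mem_insert] at hp hq
      rcases hp with rfl | hp <;> rcases hq with rfl | hq
      · exact absurd rfl hpq
      · exact hv q hpq.symm
      · exact (hv p hpq).symm
      · exact hcl hp hq hpq
    · intro S hS T hT h
      rw [Finset.mem_coe, Finset.mem_filter] at hS hT
      have h1 := congrArg (fun X => X.erase v) h
      simp only at h1
      rwa [Finset.erase_insert hS.2, Finset.erase_insert hT.2] at h1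
  rw [Finset.card_erase_of_mem (Finset.mem_univ v), Finset.card_univ] at h2
  have h4 : 0 < Fintype.card V := Fintype.card_pos_iff.2 ⟨v⟩
  omega

end

theorem W9aux {V : Type} [Fintype V] {G : SimpleGraph V} (h9 : Fintype.card V = 9)
    (h4 : G.CliqueFree 4) (hcol : G.Colorable 3) (hC4 : IsEmpty (SimpleGraph.cycleGraph 4 ↪g G))
    (h2 : cl G Finset.univ 2 = 18) (h3 : cl G Finset.univ 3 = 9) (v : V) (r : ℕ) (hr : 3 ≤ r)
    (c : Fin r → V) (hc : Function.Injective c) (hv : ∀ i, G.Adj v (c i))
    (hcc : ∀ i j, G.Adj (c i) (c j) ↔ (SimpleGraph.cycleGraph r).Adj i j) : False := by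
  classical
  obtain ⟨κ⟩ := hcol
  have twoc : ∀ x y z : V, G.Adj v x → G.Adj v y → G.Adj v z → G.Adj x y → G.Adj y z →
      κ z = κ x := by
    intro x y z a b d e f
    have e1 := κ.valid a
    have e2 := κ.valid b
    have e3 := κ.valid d
    have e4 := κ.valid e
    have e5 := κ.valid f
    rw [Ne, Fin.ext_iff] at e1 e2 e3 e4 e5
    rw [Fin.ext_iff]
    have := (κ v).isLt
    have := (κ x).isLt
    have := (κ y).isLt
    have := (κ z).isLt
    omega
  have hvc : ∀ i, c i ≠ v := fun i => (hv i).ne'
  have r8 : r ≤ 8 := by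
    have h1 : (insert v (Finset.univ.image c)).card ≤ Fintype.card V := Finset.card_le_univ _
    rw [Finset.card_insert_of_notMem, Finset.card_image_of_injective _ hc, Finset.card_univ,
      Fintype.card_fin, h9] at h1
    · omega
    · intro h
      rw [Finset.mem_image] at h
      obtain ⟨i, -, hi⟩ := h
      exact hvc i hi
  have hr' : r = 3 ∨ r = 4 ∨ r = 5 ∨ r = 6 ∨ r = 7 ∨ r = 8 := by omega
  have sum36 : ∑ x, ∑ y, A G x y = 36 := by rw [sumA, h2]
  rcases hr' with rfl | rfl | rfl | rfl | rfl | rfl
  · exact no_k4 h4 (hv 0) (hv 1) (hv 2) ((hcc 0 1).2 (by decide)) ((hcc 0 2).2 (by decide))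
      ((hcc 1 2).2 (by decide))
  · exact hC4.false ⟨⟨c, hc⟩, fun {i j} => hcc i j⟩
  · have e1 := twoc _ _ _ (hv 0) (hv 1) (hv 2) ((hcc 0 1).2 (by decide)) ((hcc 1 2).2 (by decide))
    have e2 := twoc _ _ _ (hv 2) (hv 3) (hv 4) ((hcc 2 3).2 (by decide)) ((hcc 3 4).2 (by decide))
    exact κ.valid ((hcc 4 0).2 (by decide)) (e2.trans e1)
  · -- six
    obtain ⟨u, u', huu, hO⟩ : ∃ u u', u ≠ u' ∧
        (insert v (Finset.univ.image c))ᶜ = {u, u'} := by
      refine Finset.card_eq_two.1 ?_
      rw [Finset.card_compl, h9, Finset.card_insert_of_notMem, Finset.card_image_of_injective _ hc,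
        Finset.card_univ, Fintype.card_fin]
      intro h
      rw [Finset.mem_image] at h
      obtain ⟨i, -, hi⟩ := h
      exact hvc i hi
    have hu : u ∉ insert v (Finset.univ.image c) := by
      rw [← Finset.mem_compl, hO]; simp
    have hu' : u' ∉ insert v (Finset.univ.image c) := by
      rw [← Finset.mem_compl, hO]; simp
    have huv : u ≠ v := fun h => hu (by rw [h]; simp)
    have huc : ∀ i, u ≠ c i := fun i h => hu (by rw [h]; simp)
    have huv' : u' ≠ v := fun h => hu' (by rw [h]; simp)
    have huc' : ∀ i, u' ≠ c i := fun i h => hu' (by rw [h]; simp)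
    have dec : ∀ f : V → ℕ, ∑ x, f x = f v + (f (c 0) + f (c 1) + f (c 2) + f (c 3) + f (c 4) + f (c 5)) +
        (f u + f u') := by
      intro f
      rw [← Finset.sum_add_sum_compl (insert v (Finset.univ.image c)) f, hO,
        Finset.sum_pair huu, Finset.sum_insert, Finset.sum_image fun x _ y _ h => hc h]
      · rw [Fin.sum_univ_six]
      · intro h
        rw [Finset.mem_image] at h
        obtain ⟨i, -, hi⟩ := h
        exact hvc i hi
    -- values
    have Avc : ∀ i, A G v (c i) = 1 := fun i => A_one (hv i)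
    have Acv : ∀ i, A G (c i) v = 1 := fun i => A_one (hv i).symm
    have Acc : ∀ i j, A G (c i) (c j) = if (SimpleGraph.cycleGraph 6).Adj i j then 1 else 0 := by
      intro i j
      split_ifs with h
      · exact A_one ((hcc i j).2 h)
      · exact A_zero fun h' => h ((hcc i j).1 h')
    have Auv := A_symm (G := G) u v
    have Auv' := A_symm (G := G) u' v
    have Auu := A_symm (G := G) u' u
    have Auc : ∀ i, A G (c i) u = A G u (c i) := fun i => A_symm _ _
    have Auc' : ∀ i, A G (c i) u' = A G u' (c i) := fun i => A_symm _ _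
    have cy : ∀ i : Fin 6, (if (SimpleGraph.cycleGraph 6).Adj i 0 then 1 else 0) +
        (if (SimpleGraph.cycleGraph 6).Adj i 1 then 1 else 0) +
        (if (SimpleGraph.cycleGraph 6).Adj i 2 then 1 else 0) +
        (if (SimpleGraph.cycleGraph 6).Adj i 3 then 1 else 0) +
        (if (SimpleGraph.cycleGraph 6).Adj i 4 then 1 else 0) +
        (if (SimpleGraph.cycleGraph 6).Adj i 5 then 1 else 0) = 2 := by decide
    have row : ∀ i : Fin 6, ∑ y, A G (c i) y = 3 + A G u (c i) + A G u' (c i) := by
      intro i
      rw [dec]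
      simp only [Acc, cy, Acv, Auc, Auc']
      ring
    have key : A G u (c 0) + A G u (c 1) + A G u (c 2) + A G u (c 3) + A G u (c 4) + A G u (c 5) +
        (A G u' (c 0) + A G u' (c 1) + A G u' (c 2) + A G u' (c 3) + A G u' (c 4) + A G u' (c 5)) +
        A G u v + A G u' v + A G u u' = 6 := by
      rw [dec] at sum36
      simp only [row] at sum36
      rw [dec (A G v), dec (A G u), dec (A G u')] at sum36
      simp only [Avc, A_self, ← Auv, ← Auv', Auu] at sum36
      omega
    have le1 : ∀ x y, A G x y ≤ 1 := fun x y => A_le x y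
    -- a neighbour of v has at most two neighbours on the cycle
    have two : ∀ o : V, G.Adj v o → (∀ i, o ≠ c i) →
        A G o (c 0) + A G o (c 1) + A G o (c 2) + A G o (c 3) + A G o (c 4) + A G o (c 5) ≤ 2 := by
      intro o ho hoc
      have ad : ∀ i j : Fin 6, (SimpleGraph.cycleGraph 6).Adj i j → ¬ (G.Adj o (c i) ∧ G.Adj o (c j)) :=
        fun i j hij h => no_k4 h4 ho (hv i) (hv j) h.1 h.2 ((hcc i j).2 hij)
      have ad2 : ∀ i j k : Fin 6, (SimpleGraph.cycleGraph 6).Adj i j →
          (SimpleGraph.cycleGraph 6).Adj j k → ¬ (SimpleGraph.cycleGraph 6).Adj i k → i ≠ k →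
          ¬ (G.Adj o (c i) ∧ G.Adj o (c k)) := by
        intro i j k hij hjk hik ik h
        have hj : ¬ G.Adj o (c j) := fun h' => ad i j hij ⟨h.1, h'⟩
        obtain ⟨e⟩ := Pool.Agent.P8H1.RC.exists_c4 h.1 ((hcc i j).2 hij) ((hcc j k).2 hjk) h.2.symm hj
          (fun h' => hik ((hcc i k).1 h')) (hoc j) (fun h' => ik (hc h'))
        exact hC4.false e
      have pa : ∀ i j : Fin 6, ¬ (G.Adj o (c i) ∧ G.Adj o (c j)) → A G o (c i) + A G o (c j) ≤ 1 := by
        intro i j h
        by_cases h1 : G.Adj o (c i)
        · have h2 : ¬ G.Adj o (c j) := fun h2 => h ⟨h1, h2⟩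
          rw [A_zero h2]; exact A_le _ _
        · rw [A_zero h1, zero_add]; exact A_le _ _
      have p01 := pa 0 1 (ad 0 1 (by decide))
      have p12 := pa 1 2 (ad 1 2 (by decide))
      have p02 := pa 0 2 (ad2 0 1 2 (by decide) (by decide) (by decide) (by decide))
      have p34 := pa 3 4 (ad 3 4 (by decide))
      have p45 := pa 4 5 (ad 4 5 (by decide))
      have p35 := pa 3 5 (ad2 3 4 5 (by decide) (by decide) (by decide) (by decide))
      omega
    -- a vertex not adjacent to v
    have nbr : ∀ o : V, o ≠ v → ¬ G.Adj o v →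
        A G o (c 0) + A G o (c 1) + A G o (c 2) + A G o (c 3) + A G o (c 4) + A G o (c 5) +
          (A G o u * A G v u + A G o u' * A G v u') ≤ 2 := by
      intro o ho hov
      have h1 := Pool.Agent.P8H1.RC.nb1 V G h4 hC4 o v ho hov
      rw [ccA, dec] at h1
      simp only [Avc, A_self, mul_one, mul_zero, zero_add] at h1
      exact h1
    have l1 := le1 u u'
    by_cases b : G.Adj v u
    · by_cases b' : G.Adj v u'
      · have h1 := cone (G := G) v (by
          intro x hx
          by_cases hx1 : x ∈ insert v (Finset.univ.image c)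
          · rw [Finset.mem_insert, Finset.mem_image] at hx1
            rcases hx1 with h | ⟨i, -, rfl⟩
            · exact absurd h hx
            · exact hv i
          · rw [← Finset.mem_compl, hO, Finset.mem_insert, Finset.mem_singleton] at hx1
            rcases hx1 with rfl | rfl
            · exact b
            · exact b')
        rw [h2, h3, h9] at h1
        omega
      · have t1 := two u b huc
        have t2 := nbr u' huv' (fun h => b' h.symm)
        rw [A_one b, A_zero b'] at t2
        rw [A_one b.symm, A_zero (fun h => b' h.symm : ¬ G.Adj u' v)] at key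
        rw [Auu] at t2
        omega
    · by_cases b' : G.Adj v u'
      · have t1 := two u' b' huc'
        have t2 := nbr u huv (fun h => b h.symm)
        rw [A_one b', A_zero b] at t2
        rw [A_one b'.symm, A_zero (fun h => b h.symm : ¬ G.Adj u v)] at key
        omega
      · have t1 := nbr u huv (fun h => b h.symm)
        have t2 := nbr u' huv' (fun h => b' h.symm)
        rw [A_zero b, A_zero b'] at t1 t2
        rw [A_zero (fun h => b h.symm : ¬ G.Adj u v), A_zero (fun h => b' h.symm : ¬ G.Adj u' v)] at key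
        omega
  · have e1 := twoc _ _ _ (hv 0) (hv 1) (hv 2) ((hcc 0 1).2 (by decide)) ((hcc 1 2).2 (by decide))
    have e2 := twoc _ _ _ (hv 2) (hv 3) (hv 4) ((hcc 2 3).2 (by decide)) ((hcc 3 4).2 (by decide))
    have e3 := twoc _ _ _ (hv 4) (hv 5) (hv 6) ((hcc 4 5).2 (by decide)) ((hcc 5 6).2 (by decide))
    exact κ.valid ((hcc 6 0).2 (by decide)) (e3.trans (e2.trans e1))
  · -- eight
    have hO : insert v (Finset.univ.image c) = Finset.univ := by
      rw [← Finset.card_eq_iff_eq_univ, h9, Finset.card_insert_of_notMem,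
        Finset.card_image_of_injective _ hc, Finset.card_univ, Fintype.card_fin]
      intro h
      rw [Finset.mem_image] at h
      obtain ⟨i, -, hi⟩ := h
      exact hvc i hi
    have dec : ∀ f : V → ℕ, ∑ x, f x = f v + ∑ i, f (c i) := by
      intro f
      rw [← hO, Finset.sum_insert, Finset.sum_image fun x _ y _ h => hc h]
      intro h
      rw [Finset.mem_image] at h
      obtain ⟨i, -, hi⟩ := h
      exact hvc i hi
    have Avc : ∀ i, A G v (c i) = 1 := fun i => A_one (hv i)
    have Acv : ∀ i, A G (c i) v = 1 := fun i => A_one (hv i).symm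
    have Acc : ∀ i j, A G (c i) (c j) = if (SimpleGraph.cycleGraph 8).Adj i j then 1 else 0 := by
      intro i j
      split_ifs with h
      · exact A_one ((hcc i j).2 h)
      · exact A_zero fun h' => h ((hcc i j).1 h')
    have cy : ∑ i : Fin 8, ∑ j : Fin 8, (if (SimpleGraph.cycleGraph 8).Adj i j then 1 else 0) =
        16 := by decide
    rw [dec] at sum36
    simp only [dec, Avc, Acv, Acc, A_self, Finset.sum_add_distrib, cy, Finset.sum_const,
      Finset.card_univ, Fintype.card_fin, smul_eq_mul] at sum36
    omega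

/-- **W9** -/
theorem w9 : S_W9 := by
  intro V _ G h9 h4 hcol hns h2 h3 v
  by_contra hac
  have : Finite (G.neighborSet v) := Finite.of_injective (fun x => (x : V)) Subtype.val_injective
  obtain ⟨r, hr, ⟨e⟩⟩ := Pool.Agent.P8H1.RC.hole _ (link G v) hac
  exact W9aux h9 h4 hcol (hns 4 (by norm_num) (by norm_num)) h2 h3 v r hr (fun i => (e i : V))
    (fun i j h => e.injective (Subtype.ext h)) (fun i => (e i).2)
    (fun i j => e.map_rel_iff)

end Pool.Agent.P8H7.RC9
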