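import Pool.Agent.P8H79.RC.Stm5
import Pool.Agent.P8H1.RC.Nb1
import Pool.Agent.P8H1.RC.Emb
import Pool.Agent.P8H1.RC.Link
import Pool.Agent.P8H59.RC.Hx
import Pool.Agent.P8H7.RC.W9
import Pool.Agent.P8H7.RC.Sq9

/-!
# Project RC, package FINW6: preparations
-/

set_option autoImplicit false

namespace Pool.Agent.P8H7.RC6

open Finset
open Pool.Agent.P8H79.RC

/-- an induced cycle as a function on `ZMod l` -/
structure Cyc {V : Type} (G : SimpleGraph V) (l : ℕ) (f : ZMod l → V) : Prop where
  inj : Function.Injective f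
  adj : ∀ i j, G.Adj (f i) (f j) ↔ j = i + 1 ∨ i = j + 1

variable {V : Type} {G : SimpleGraph V}

theorem Cyc.emb {l : ℕ} (hl : 3 ≤ l) {f : ZMod l → V} (h : Cyc G l f) :
    ∃ e : SimpleGraph.cycleGraph l ↪g G, Set.range e = Set.range f := by
  obtain ⟨k, rfl⟩ : ∃ k, l = k + 2 := ⟨l - 2, by omega⟩
  refine ⟨⟨⟨f, h.inj⟩, ?_⟩, rfl⟩
  intro i j
  show G.Adj (f i) (f j) ↔ _
  rw [h.adj, SimpleGraph.cycleGraph_adj]
  constructor
  · rintro (h | h)
    · right
      rw [h]
      exact add_sub_cancel_left (G := ZMod (k + 2)) i 1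
    · left
      rw [h]
      exact add_sub_cancel_left (G := ZMod (k + 2)) j 1
  · rintro (h | h)
    · right
      exact eq_add_of_sub_eq' (G := ZMod (k + 2)) h
    · left
      exact eq_add_of_sub_eq' (G := ZMod (k + 2)) h

theorem mem_holes [Fintype V] [DecidableEq V] {l : ℕ} (e : SimpleGraph.cycleGraph l ↪g G) :
    (Finset.univ.image e) ∈ (Finset.univ : Finset V).powersetCard l ∧
      Nonempty (SimpleGraph.cycleGraph l ≃g G.induce ((Finset.univ.image e : Finset V) : Set V)) := by
  have hmem : ∀ i, e i ∈ ((Finset.univ.image e : Finset V) : Set V) := fun i => by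
    rw [Finset.mem_coe]
    exact Finset.mem_image_of_mem _ (Finset.mem_univ i)
  have hcard : (Finset.univ.image e : Finset V).card = l := by
    rw [Finset.card_image_of_injective _ e.injective, Finset.card_univ, Fintype.card_fin]
  refine ⟨?_, ?_⟩
  · rw [Finset.mem_powersetCard]
    exact ⟨Finset.subset_univ _, hcard⟩
  · let f : Fin l → ((Finset.univ.image e : Finset V) : Set V) := fun i => ⟨e i, hmem i⟩
    have hf : Function.Injective f := by
      intro i j hij
      exact e.injective (congrArg Subtype.val hij)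
    have hs : Function.Surjective f := by
      rintro ⟨x, hx⟩
      rw [Finset.mem_coe, Finset.mem_image] at hx
      obtain ⟨i, -, hi⟩ := hx
      exact ⟨i, Subtype.ext hi⟩
    refine ⟨⟨Equiv.ofBijective f ⟨hf, hs⟩, ?_⟩⟩
    intro a b
    exact e.map_rel_iff'

theorem three_holes [Fintype V] {l : ℕ} (e1 e2 e3 : SimpleGraph.cycleGraph l ↪g G)
    (h12 : Set.range e1 ≠ Set.range e2) (h13 : Set.range e1 ≠ Set.range e3)
    (h23 : Set.range e2 ≠ Set.range e3) : 3 ≤ holes G l := by
  classical
  rw [Pool.Agent.P8H59.RC.holes_eq]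
  unfold Pool.Agent.P8H59.RC.hh
  have cr : ∀ e : SimpleGraph.cycleGraph l ↪g G,
      ((Finset.univ.image e : Finset V) : Set V) = Set.range e := fun e => by
    rw [Finset.coe_image, Finset.coe_univ, Set.image_univ]
  have ne : ∀ e e' : SimpleGraph.cycleGraph l ↪g G, Set.range e ≠ Set.range e' →
      (Finset.univ.image e : Finset V) ≠ Finset.univ.image e' := by
    intro e e' h h'
    apply h
    rw [← cr, ← cr, h']
  have h3 : ({Finset.univ.image e1, Finset.univ.image e2, Finset.univ.image e3} :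
      Finset (Finset V)).card = 3 := by
    rw [Finset.card_eq_three]
    exact ⟨_, _, _, ne _ _ h12, ne _ _ h13, ne _ _ h23, rfl⟩
  rw [← h3]
  apply Finset.card_le_card
  intro S hS
  rw [Finset.mem_insert, Finset.mem_insert, Finset.mem_singleton] at hS
  rw [Finset.mem_filter]
  rcases hS with rfl | rfl | rfl
  · exact mem_holes e1
  · exact mem_holes e2
  · exact mem_holes e3

theorem not_conn {a b x : V} (hxa : G.Adj x a) (hxb : G.Adj x b) (hab : a ≠ b)
    (h : ¬ ∃ w, G.Adj w x ∧ G.Adj w a) : ¬ (link G x).Connected := by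
  intro hc
  obtain ⟨x1, h1⟩ : ∃ x1 : G.neighborSet x, x1 = ⟨a, hxa⟩ := ⟨_, rfl⟩
  obtain ⟨x2, h2⟩ : ∃ x2 : G.neighborSet x, x2 = ⟨b, hxb⟩ := ⟨_, rfl⟩
  obtain ⟨p⟩ := hc.preconnected x1 x2
  cases p with
  | nil =>
    rw [h1] at h2
    exact hab (congrArg Subtype.val h2)
  | @cons _ w _ h' p =>
    apply h
    have h3 : G.Adj (x1 : V) w := h'
    have h4 : G.Adj x w := w.2
    rw [h1] at h3
    exact ⟨w, h4.symm, h3.symm⟩

theorem two_bad [Fintype V] (hne : ∀ v, (G.neighborSet v).Nonempty)
    (h2 : cl G Finset.univ 2 = 2 * Fintype.card V) (h3 : cl G Finset.univ 3 = Fintype.card V)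
    (v : V) (hac : ∀ u, u ≠ v → (link G u).IsAcyclic)
    (hv : (link G v).edgeSet.ncard ≤ (G.neighborSet v).ncard)
    (u1 u2 : V) (h12 : u1 ≠ u2) (hu1 : u1 ≠ v) (hu2 : u2 ≠ v) (n1 : ¬ (link G u1).Connected)
    (n2 : ¬ (link G u2).Connected) : False := by
  classical
  have hne' : ∀ v, Nonempty (G.neighborSet v) := fun v => (hne v).to_subtype
  have hv' : cl (link G v) Finset.univ 2 ≤ Fintype.card (G.neighborSet v) := by
    rw [Pool.Agent.P8H1.RC.edge_card]
    have e1 : (link G v).edgeSet.ncard = (link G v).edgeFinset.card := by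
      rw [← SimpleGraph.coe_edgeFinset, Set.ncard_coe_finset]
    have e2 : (G.neighborSet v).ncard = Fintype.card (G.neighborSet v) := by
      rw [← Nat.card_coe_set_eq, Nat.card_eq_fintype_card]
    rw [← e1, ← e2]
    exact hv
  have strict : ∀ u, u ≠ v → ¬ (link G u).Connected →
      cl (link G u) Finset.univ 2 + 2 ≤ Fintype.card (G.neighborSet u) := by
    intro u hu hc
    have := hne' u
    obtain ⟨f1, f2⟩ := Pool.Agent.P8H1.RC.forest (hac u hu)
    by_contra h
    exact hc (f2 (by omega)).1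
  have hle : ∀ u ∈ (Finset.univ : Finset V), cl (link G u) Finset.univ 2 + 1 +
      ((if u = u1 then 1 else 0) + (if u = u2 then 1 else 0)) ≤
      Fintype.card (G.neighborSet u) + (if u = v then 1 else 0) := by
    intro u _
    have := hne' u
    by_cases e1 : u = u1
    · have s := strict u1 hu1 n1
      subst e1
      rw [if_pos rfl, if_neg h12, if_neg hu1]
      omega
    · by_cases e2 : u = u2
      · have s := strict u2 hu2 n2
        subst e2
        rw [if_pos rfl, if_neg e1, if_neg hu2]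
        omega
      · rw [if_neg e1, if_neg e2]
        by_cases e3 : u = v
        · subst e3
          rw [if_pos rfl]
          omega
        · rw [if_neg e3]
          have := (Pool.Agent.P8H1.RC.forest (hac u e3)).1
          omega
  have hs := Finset.sum_le_sum hle
  rw [Finset.sum_add_distrib, Finset.sum_add_distrib, Finset.sum_add_distrib,
    Finset.sum_ite_eq' , Finset.sum_ite_eq', Finset.sum_add_distrib (f := fun u => Fintype.card (G.neighborSet u)), Finset.sum_ite_eq',
    Finset.sum_congr rfl fun u _ => Pool.Agent.P8H1.RC.link_card G u,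
    Pool.Agent.P8H1.RC.sum_tri, h3, Finset.sum_const, Finset.card_univ, smul_eq_mul, mul_one] at hs
  simp only [Finset.mem_univ, if_true] at hs
  have h5 := G.sum_degrees_eq_twice_card_edges
  rw [← Pool.Agent.P8H1.RC.edge_card, h2] at h5
  have h6 : ∑ u : V, Fintype.card (G.neighborSet u) = ∑ u : V, G.degree u :=
    Finset.sum_congr rfl fun u _ => by
      rw [SimpleGraph.card_neighborSet_eq_degree]
  rw [h6, h5] at hs
  omega

section
variable {l : ℕ} [NeZero l]

theorem bad_count (T B : Finset (ZMod l)) (hB : ∀ i, i ∈ B ↔ (i ∉ T ∨ i - 1 ∉ T))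
    (t : ℕ) (ht : T.card ≤ t) (h1 : 1 ≤ t) (htl : t < l) : l + 1 ≤ B.card + t := by
  classical
  have hc : B.card + Bᶜ.card = l := by
    rw [Finset.card_add_card_compl, ZMod.card]
  have hsub : Bᶜ ⊆ T := by
    intro i hi
    rw [Finset.mem_compl, hB] at hi
    by_contra h
    exact hi (Or.inl h)
  by_cases hT : T = ∅
  · have h2 := Finset.card_le_card hsub
    rw [hT, Finset.card_empty] at h2
    omega
  · have hss : Bᶜ ⊂ T := by
      rw [Finset.ssubset_iff_subset_ne]
      refine ⟨hsub, fun he => ?_⟩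
      obtain ⟨i0, hi0⟩ := Finset.nonempty_iff_ne_empty.2 hT
      have step : ∀ i, i ∈ T → i - 1 ∈ T := by
        intro i hi
        rw [← he, Finset.mem_compl, hB] at hi
        by_contra h
        exact hi (Or.inr h)
      have all : ∀ k : ℕ, i0 - (k : ZMod l) ∈ T := by
        intro k
        induction k with
        | zero => simpa using hi0
        | succ k ih =>
          have := step _ ih
          have e : i0 - ((k + 1 : ℕ) : ZMod l) = i0 - (k : ZMod l) - 1 := by push_cast; ring
          rw [e]; exact this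
      have hu : T = Finset.univ := by
        rw [Finset.eq_univ_iff_forall]
        intro j
        have := all ((i0 - j).val)
        rw [ZMod.natCast_zmod_val] at this
        simpa using this
      rw [hu, Finset.card_univ, ZMod.card] at ht
      omega
    have h2 := Finset.card_lt_card hss
    omega

theorem Tbound [Fintype V] (q : ZMod l → V) (v : V) (O : Finset V) (T : Finset (ZMod l))
    (hT : ∀ i, i ∈ T ↔ ∃ w, G.Adj w (q i) ∧ G.Adj w (q (i + 1)))
    (hQ : ∀ w i, G.Adj w (q i) → G.Adj w (q (i + 1)) → w ∉ Set.range q)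
    (hO : ∀ w, w ∉ Set.range q → w ∉ O → (w = v ∨ G.Adj v w))
    (hOQ : ∀ w ∈ O, w ∉ Set.range q) (α m : ℕ)
    (hα : {i | ∃ a, a ∉ Set.range q ∧ (a = v ∨ G.Adj v a) ∧ G.Adj a (q i) ∧
      G.Adj a (q (i + 1))}.ncard ≤ α)
    (hm : ∀ w, w ∉ Set.range q → {i | G.Adj w (q i) ∧ G.Adj w (q (i + 1))}.ncard ≤ m) :
    T.card ≤ α + O.card * m := by
  classical
  have h1 : T ⊆ (Set.toFinset {i | ∃ a, a ∉ Set.range q ∧ (a = v ∨ G.Adj v a) ∧ G.Adj a (q i) ∧
      G.Adj a (q (i + 1))}) ∪ O.biUnion (fun w =>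
        Set.toFinset {i | G.Adj w (q i) ∧ G.Adj w (q (i + 1))}) := by
    intro i hi
    obtain ⟨w, h1, h2⟩ := (hT i).1 hi
    have h3 := hQ w i h1 h2
    rw [Finset.mem_union]
    by_cases hw : w ∈ O
    · right
      rw [Finset.mem_biUnion]
      exact ⟨w, hw, by rw [Set.mem_toFinset]; exact ⟨h1, h2⟩⟩
    · left
      rw [Set.mem_toFinset]
      exact ⟨w, h3, hO w h3 hw, h1, h2⟩
  refine (Finset.card_le_card h1).trans ((Finset.card_union_le _ _).trans (Nat.add_le_add ?_ ?_))
  · rw [← Set.ncard_eq_toFinset_card']; exact hα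
  · refine Finset.card_biUnion_le_card_mul _ _ _ fun w hw => ?_
    rw [← Set.ncard_eq_toFinset_card']; exact hm w (hOQ w hw)

theorem many {P : ZMod l → Prop} {k : ℕ} (h : {i | P i}.ncard ≤ k) (S : Finset (ZMod l))
    (hS : ∀ i ∈ S, P i) : S.card ≤ k := by
  rw [← Set.ncard_coe_finset S]
  exact (Set.ncard_le_ncard (fun i hi => hS i (Finset.mem_coe.1 hi)) (Set.toFinite _)).trans h

/-- small integers are different modulo `l` -/
theorem zne (hl : 6 ≤ l) (a b : ZMod l) (u : ℤ) (h0 : u ≠ 0) (h5 : |u| ≤ 5)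
    (h : b = a + (u : ZMod l)) : a ≠ b := by
  intro he
  apply h0
  apply Pool.Agent.P8H7.RC9.zz (n := l) u
  · have : a + (u : ZMod l) - a = 0 := by rw [← h, he]; ring
    rw [← this]; ring
  · have : (6 : ℤ) ≤ l := by exact_mod_cast hl
    omega

theorem notQ (hl : 6 ≤ l) {q : ZMod l → V} (hq : Cyc G l q) (w : V) (i : ZMod l)
    (h1 : G.Adj w (q i)) (h2 : G.Adj w (q (i + 1))) : w ∉ Set.range q := by
  rintro ⟨j, rfl⟩
  rw [hq.adj] at h1 h2
  rcases h1 with h1 | h1 <;> rcases h2 with h2 | h2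
  · exact zne hl i (i + 1) 1 (by norm_num) (by norm_num) (by push_cast; ring) (by rw [h2, h1])
  · exact zne hl i (i + 3) 3 (by norm_num) (by norm_num) (by push_cast; ring) (by
      calc i = j + 1 := h1
        _ = i + 1 + 1 + 1 := by rw [h2]
        _ = i + 3 := by ring)
  · have h3 : i + 1 = i + 2 := by rw [h2, h1]; ring
    exact zne hl (i + 1) (i + 2) 1 (by norm_num) (by norm_num) (by push_cast; ring) h3
  · have h3 : i + 1 = i + 2 := by rw [← h1, h2]; ring
    exact zne hl (i + 1) (i + 2) 1 (by norm_num) (by norm_num) (by push_cast; ring) h3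

end

end Pool.Agent.P8H7.RC6
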